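import Pool.Agent.Lib.MP_331bf5_ag.D.P1

/-!
The hypotheses: `f (u, z) = a z * u + b z`, `z ∈ ℂ × ℂ`, and the part `f ≠ 0` of `ℂ × (ℂ × ℂ)` is the product of
`ℂ ∖ {0}` (with the coordinate `c = f`) and the plane (with the coordinates `q = Φ (u, z)`).
-/

set_option autoImplicit false

open Complex Set Filter Topology MeasureTheory Metric

namespace Pool.Agent.Lib.MP_331bf5_ag

/-- The function `f (u, z) = a z * u + b z` is, off its zero set, a product with the planes as fibres: `Ψ (c, q)` is the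
point `r` with `f r = c` and `Φ r = q`. -/
structure Triv (a b : ℂ × ℂ → ℂ) (Φ : ℂ × (ℂ × ℂ) → ℂ × ℂ) (Ψ : ℂ × (ℂ × ℂ) → ℂ × (ℂ × ℂ)) : Prop where
  ha : Differentiable ℂ a
  hb : Differentiable ℂ b
  hΦ : Differentiable ℂ Φ
  hΨ : DifferentiableOn ℂ Ψ {p | p.1 ≠ 0}
  val : ∀ p : ℂ × (ℂ × ℂ), p.1 ≠ 0 → a (Ψ p).2 * (Ψ p).1 + b (Ψ p).2 = p.1
  left : ∀ p : ℂ × (ℂ × ℂ), p.1 ≠ 0 → Φ (Ψ p) = p.2
  right : ∀ r : ℂ × (ℂ × ℂ), a r.2 * r.1 + b r.2 ≠ 0 → Ψ (a r.2 * r.1 + b r.2, Φ r) = r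
  hne : ∃ z, a z ≠ 0

end Pool.Agent.Lib.MP_331bf5_ag
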