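import Pool.Agent.Lib.MP_331bf5_ag.D.P2
import Pool.Agent.Lib.MP_331bf5_ag.D.Hyp

/-!
A primitive of `dk ∧ da / a` on the fibres.
-/

set_option autoImplicit false

open Complex Set Filter Topology MeasureTheory Metric

namespace Pool.Agent.Lib.MP_331bf5_ag

private theorem B_lin (L : ℂ × ℂ →L[ℂ] ℂ) (x : ℂ × ℂ) : L x = x.1 * L (1, 0) + x.2 * L (0, 1) := by
  have h : x = x.1 • ((1 : ℂ), (0 : ℂ)) + x.2 • ((0 : ℂ), (1 : ℂ)) := by
    refine Prod.ext ?_ ?_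
    · simp
    · simp
  have h1 : L x = L (x.1 • ((1 : ℂ), (0 : ℂ)) + x.2 • ((0 : ℂ), (1 : ℂ))) := congrArg L h
  rw [h1, map_add, map_smul, map_smul, smul_eq_mul, smul_eq_mul]

private theorem B_lin3 (L : ℂ × (ℂ × ℂ) →L[ℂ] ℂ) (x : ℂ × ℂ) :
    L (0, x) = x.1 * L (0, (1, 0)) + x.2 * L (0, (0, 1)) :=
  B_lin (L.comp (ContinuousLinearMap.inr ℂ ℂ (ℂ × ℂ))) x

private theorem B_fd {E : Type*} [NormedAddCommGroup E] [NormedSpace ℂ E] [FiniteDimensional ℂ E]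
    {O : Set E} (hO : IsOpen O) {f : E → ℂ} (hf : DifferentiableOn ℂ f O) (e : E) :
    DifferentiableOn ℂ (fun p => fderiv ℂ f p e) O := by
  have h1 : ContDiffOn ℂ 1 (fderiv ℂ f) O :=
    (osg hO hf 2).fderiv_of_isOpen hO (by norm_num)
  exact (h1.differentiableOn one_ne_zero).clm_apply (differentiableOn_const e)

private theorem B_one {h : ℂ → ℂ} (hh : Continuous h) {τ I' : ℂ}
    (hI : HasDerivAt (fun τ : ℂ => ∫ σ in (0 : ℝ)..1, (1 : ℂ) * h ((σ : ℂ) * τ)) I' τ) :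
    HasDerivAt (fun τ : ℂ => τ * ∫ σ in (0 : ℝ)..1, (1 : ℂ) * h ((σ : ℂ) * τ)) (h τ) τ := by
  have h1 : HasDerivAt (fun τ : ℂ => τ * ∫ σ in (0 : ℝ)..1, (1 : ℂ) * h ((σ : ℂ) * τ))
      ((1 : ℂ) * (∫ σ in (0 : ℝ)..1, (1 : ℂ) * h ((σ : ℂ) * τ)) + τ * I') τ :=
    (hasDerivAt_id τ).mul hI
  have h2 : (1 : ℂ) * (∫ σ in (0 : ℝ)..1, (1 : ℂ) * h ((σ : ℂ) * τ)) + τ * I' = h τ := by
    by_cases h0 : τ = 0
    · rw [h0, zero_mul, add_zero, one_mul]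
      simp only [mul_zero, one_mul]
      rw [intervalIntegral.integral_const, sub_zero, one_smul]
    · have h3 : HasDerivAt (fun s : ℝ => (s : ℂ) * τ) (1 * τ) 1 :=
        (Complex.ofRealCLM.hasDerivAt (x := (1 : ℝ))).mul_const τ
      have h1' : HasDerivAt (fun τ : ℂ => τ * ∫ σ in (0 : ℝ)..1, (1 : ℂ) * h ((σ : ℂ) * τ))
          ((1 : ℂ) * (∫ σ in (0 : ℝ)..1, (1 : ℂ) * h ((σ : ℂ) * τ)) + τ * I')
          (((1 : ℝ) : ℂ) * τ) := by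
        have e1 : ((1 : ℝ) : ℂ) * τ = τ := by rw [Complex.ofReal_one, one_mul]
        rw [e1]
        exact h1
      have h4 := h1'.comp (1 : ℝ) h3
      have h5 : ((fun τ : ℂ => τ * ∫ σ in (0 : ℝ)..1, (1 : ℂ) * h ((σ : ℂ) * τ)) ∘
          fun s : ℝ => (s : ℂ) * τ) = fun s : ℝ => τ * ∫ ρ in (0 : ℝ)..s, h ((ρ : ℂ) * τ) := by
        funext s
        have h6 := intervalIntegral.smul_integral_comp_mul_right (a := 0) (b := 1)
          (fun ρ : ℝ => h ((ρ : ℂ) * τ)) s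
        rw [zero_mul, one_mul] at h6
        show (s : ℂ) * τ * (∫ σ in (0 : ℝ)..1, (1 : ℂ) * h ((σ : ℂ) * ((s : ℂ) * τ))) = _
        rw [← h6, Complex.real_smul]
        have h7 : ∀ σ : ℝ, (1 : ℂ) * h ((σ : ℂ) * ((s : ℂ) * τ)) = h (((σ * s : ℝ) : ℂ) * τ) := by
          intro σ
          rw [one_mul, Complex.ofReal_mul, mul_assoc]
        simp only [h7]
        ring
      rw [h5] at h4
      have hc : Continuous fun ρ : ℝ => h ((ρ : ℂ) * τ) :=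
        hh.comp (Complex.continuous_ofReal.mul continuous_const)
      have h8 : HasDerivAt (fun s : ℝ => ∫ ρ in (0 : ℝ)..s, h ((ρ : ℂ) * τ))
          (h (((1 : ℝ) : ℂ) * τ)) 1 :=
        intervalIntegral.integral_hasDerivAt_right (hc.intervalIntegrable _ _)
          (hc.stronglyMeasurableAtFilter _ _) hc.continuousAt
      have h9 := h8.const_mul τ
      have h10 := h4.unique h9
      rw [Complex.ofReal_one, one_mul, one_mul] at h10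
      rw [one_mul]
      refine mul_right_cancel₀ h0 ?_
      rw [h10, mul_comm]
  rw [h2] at h1
  exact h1

/-- A function `B` with `a d(B dq₁) = dk ∧ da` on every fibre `f = c ≠ 0` (coordinates `q = (q₁, q₂)`).

PROOF: write `Ψ = (U, Z)`, `Z = (V, W)`. Let `J (c, q) = det` of the 3×3 matrix with the rows `(U_i, V_i, W_i)`, `i = c`,
`q₁`, `q₂` (partial derivatives of `Ψ` at `(c, q)`; holomorphic for `c ≠ 0` by `osg`: `fderiv ℂ U p e` is holomorphic in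
`p`). Differentiating `val`: with `α = U a_v + b_v`, `β = U a_w + b_w` (at `Z`): `a U_i + α V_i + β W_i = δ_(i, c)`.
Hence `a J = V_1 W_2 - V_2 W_1` (multiply the first column by `a`, add `α` times the second and `β` times the third
one). Put `H (c, q) = (k_v a_w - k_w a_v) (Z) * J (c, q)`; then `k_1 A_2 - k_2 A_1 = A H` for `K = k ∘ Z`, `A = a ∘ Z`,
because `K_1 A_2 - K_2 A_1 = (k_v a_w - k_w a_v) (V_1 W_2 - V_2 W_1)`. Put
`B (c, (q₁, q₂)) = - q₂ ∫ σ in 0..1, H (c, (q₁, σ q₂))`: holomorphic for `c ≠ 0` by `par` (`E = ℂ × (ℂ × ℂ)`,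
`Θ (p, σ) = H (p.1, (p.2.1, σ p.2.2))`, `γ σ = σ`, `w = 1`), and `∂B/∂q₂ = - H` (for fixed `c, q₁` it is
`- ∫ τ in 0..q₂, H` along the segment; the primitive of the entire function `τ ↦ H (c, (q₁, τ))`:
`d/dσ (σ ↦ P (σ q₂))` with a primitive `P`, or differentiate under the integral and integrate by parts). For `x, y` the
2-form `dB ∧ dq₁` is `(x.2 y.1 - y.2 x.1) ∂B/∂q₂ = (x.1 y.2 - x.2 y.1) H`. -/
theorem exB {a b : ℂ × ℂ → ℂ} {Φ : ℂ × (ℂ × ℂ) → ℂ × ℂ} {Ψ : ℂ × (ℂ × ℂ) → ℂ × (ℂ × ℂ)} (T : Triv a b Φ Ψ)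
    (k : ℂ × ℂ → ℂ) (hk : Differentiable ℂ k) :
    ∃ B : ℂ × (ℂ × ℂ) → ℂ, DifferentiableOn ℂ B {p | p.1 ≠ 0} ∧
      ∀ c : ℂ, c ≠ 0 → ∀ q x y : ℂ × ℂ,
        a (Ψ (c, q)).2 * (fderiv ℂ (fun q => B (c, q)) q x * y.1 - fderiv ℂ (fun q => B (c, q)) q y * x.1) =
          fderiv ℂ (fun q => k (Ψ (c, q)).2) q x * fderiv ℂ (fun q => a (Ψ (c, q)).2) q y -
            fderiv ℂ (fun q => k (Ψ (c, q)).2) q y * fderiv ℂ (fun q => a (Ψ (c, q)).2) q x := by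
  classical
  have hO : IsOpen {p : ℂ × (ℂ × ℂ) | p.1 ≠ 0} := isOpen_ne.preimage continuous_fst
  obtain ⟨U, hUd⟩ : ∃ U : ℂ × (ℂ × ℂ) → ℂ, U = fun p => (Ψ p).1 := ⟨_, rfl⟩
  obtain ⟨V, hVd⟩ : ∃ V : ℂ × (ℂ × ℂ) → ℂ, V = fun p => (Ψ p).2.1 := ⟨_, rfl⟩
  obtain ⟨W, hWd⟩ : ∃ W : ℂ × (ℂ × ℂ) → ℂ, W = fun p => (Ψ p).2.2 := ⟨_, rfl⟩
  have hU : DifferentiableOn ℂ U {p | p.1 ≠ 0} := by rw [hUd]; exact T.hΨ.fst
  have hV : DifferentiableOn ℂ V {p | p.1 ≠ 0} := by rw [hVd]; exact T.hΨ.snd.fst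
  have hW : DifferentiableOn ℂ W {p | p.1 ≠ 0} := by rw [hWd]; exact T.hΨ.snd.snd
  have hZ : ∀ p, (Ψ p).2 = (V p, W p) := by
    intro p
    rw [hVd, hWd]
  have hZd : DifferentiableOn ℂ (fun p => (V p, W p)) {p : ℂ × (ℂ × ℂ) | p.1 ≠ 0} := hV.prodMk hW
  -- the partial derivatives of a function of two variables
  have hpd : ∀ (g : ℂ × ℂ → ℂ), Differentiable ℂ g → ∀ e : ℂ × ℂ,
      DifferentiableOn ℂ (fun p => fderiv ℂ g (V p, W p) e) {p : ℂ × (ℂ × ℂ) | p.1 ≠ 0} := by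
    intro g hg e
    have h1 := B_fd isOpen_univ hg.differentiableOn e
    exact h1.comp hZd (fun _ _ => mem_univ _)
  obtain ⟨J, hJd⟩ : ∃ J : ℂ × (ℂ × ℂ) → ℂ, J = fun p =>
      fderiv ℂ U p (1, (0, 0)) * (fderiv ℂ V p (0, (1, 0)) * fderiv ℂ W p (0, (0, 1)) -
        fderiv ℂ V p (0, (0, 1)) * fderiv ℂ W p (0, (1, 0))) -
      fderiv ℂ U p (0, (1, 0)) * (fderiv ℂ V p (1, (0, 0)) * fderiv ℂ W p (0, (0, 1)) -
        fderiv ℂ V p (0, (0, 1)) * fderiv ℂ W p (1, (0, 0))) +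
      fderiv ℂ U p (0, (0, 1)) * (fderiv ℂ V p (1, (0, 0)) * fderiv ℂ W p (0, (1, 0)) -
        fderiv ℂ V p (0, (1, 0)) * fderiv ℂ W p (1, (0, 0))) := ⟨_, rfl⟩
  have hJ : DifferentiableOn ℂ J {p | p.1 ≠ 0} := by
    rw [hJd]
    exact (((B_fd hO hU _).mul (((B_fd hO hV _).mul (B_fd hO hW _)).sub
      ((B_fd hO hV _).mul (B_fd hO hW _)))).sub ((B_fd hO hU _).mul
      (((B_fd hO hV _).mul (B_fd hO hW _)).sub ((B_fd hO hV _).mul (B_fd hO hW _))))).add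
      ((B_fd hO hU _).mul (((B_fd hO hV _).mul (B_fd hO hW _)).sub
        ((B_fd hO hV _).mul (B_fd hO hW _))))
  obtain ⟨H, hHd⟩ : ∃ H : ℂ × (ℂ × ℂ) → ℂ, H = fun p =>
      (fderiv ℂ k (V p, W p) (1, 0) * fderiv ℂ a (V p, W p) (0, 1) -
        fderiv ℂ k (V p, W p) (0, 1) * fderiv ℂ a (V p, W p) (1, 0)) * J p := ⟨_, rfl⟩
  have hH : DifferentiableOn ℂ H {p | p.1 ≠ 0} := by
    rw [hHd]
    exact ((((hpd k hk _).mul (hpd a T.ha _)).sub ((hpd k hk _).mul (hpd a T.ha _)))).mul hJ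
  obtain ⟨Θ, hΘd⟩ : ∃ Θ : (ℂ × (ℂ × ℂ)) × ℂ → ℂ, Θ = fun r =>
      H (r.1.1, (r.1.2.1, r.2 * r.1.2.2)) := ⟨_, rfl⟩
  have hO' : IsOpen {r : (ℂ × (ℂ × ℂ)) × ℂ | r.1.1 ≠ 0} :=
    isOpen_ne.preimage (continuous_fst.comp continuous_fst)
  have hΘ : DifferentiableOn ℂ Θ {r : (ℂ × (ℂ × ℂ)) × ℂ | r.1.1 ≠ 0} := by
    rw [hΘd]
    have h1 : Differentiable ℂ fun r : (ℂ × (ℂ × ℂ)) × ℂ => (r.1.1, (r.1.2.1, r.2 * r.1.2.2)) := by
      fun_prop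
    exact hH.comp h1.differentiableOn (fun r hr => hr)
  obtain ⟨I, hId⟩ : ∃ I : ℂ × (ℂ × ℂ) → ℂ, I = fun p =>
      ∫ θ in (0 : ℝ)..1, (fun _ : ℝ => (1 : ℂ)) θ * Θ (p, (fun θ : ℝ => (θ : ℂ)) θ) := ⟨_, rfl⟩
  have hI : ∀ p : ℂ × (ℂ × ℂ), p.1 ≠ 0 → DifferentiableAt ℂ I p := by
    intro p hp
    rw [hId]
    exact (par Θ hO' hΘ (γ := fun θ : ℝ => (θ : ℂ)) (w := fun _ => 1) Complex.continuous_ofReal
      continuous_const 0 1 p (fun θ _ => hp)).differentiableAt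
  have hB : ∀ p : ℂ × (ℂ × ℂ), p.1 ≠ 0 →
      DifferentiableAt ℂ (fun p : ℂ × (ℂ × ℂ) => -(p.2.2 * I p)) p := by
    intro p hp
    exact ((differentiableAt_snd.snd).mul (hI p hp)).neg
  refine ⟨fun p => -(p.2.2 * I p), fun p hp => (hB p hp).differentiableWithinAt, ?_⟩
  intro c hc q x y
  have hp : ((c, q) : ℂ × (ℂ × ℂ)).1 ≠ 0 := hc
  have hmem : {p : ℂ × (ℂ × ℂ) | p.1 ≠ 0} ∈ 𝓝 ((c, q) : ℂ × (ℂ × ℂ)) := hO.mem_nhds hp
  have hU1 := (hU.differentiableAt hmem).hasFDerivAt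
  have hV1 := (hV.differentiableAt hmem).hasFDerivAt
  have hW1 := (hW.differentiableAt hmem).hasFDerivAt
  obtain ⟨U', hU'⟩ : ∃ U', U' = fderiv ℂ U (c, q) := ⟨_, rfl⟩
  obtain ⟨V', hV'⟩ : ∃ V', V' = fderiv ℂ V (c, q) := ⟨_, rfl⟩
  obtain ⟨W', hW'⟩ : ∃ W', W' = fderiv ℂ W (c, q) := ⟨_, rfl⟩
  rw [← hU'] at hU1
  rw [← hV'] at hV1
  rw [← hW'] at hW1
  have hcomp : ∀ g : ℂ × ℂ → ℂ, Differentiable ℂ g →
      HasFDerivAt (fun p => g (V p, W p)) ((fderiv ℂ g (V (c, q), W (c, q))).comp (V'.prod W'))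
        (c, q) := by
    intro g hg
    exact (hg _).hasFDerivAt.comp (c, q) (hV1.prodMk hW1)
  have hval : ∀ g : ℂ × ℂ → ℂ, ∀ e, ((fderiv ℂ g (V (c, q), W (c, q))).comp (V'.prod W')) e =
      V' e * fderiv ℂ g (V (c, q), W (c, q)) (1, 0) +
        W' e * fderiv ℂ g (V (c, q), W (c, q)) (0, 1) := by
    intro g e
    exact B_lin (fderiv ℂ g (V (c, q), W (c, q))) (V' e, W' e)
  -- the differential of `val`
  have hrel : ∀ e : ℂ × (ℂ × ℂ), a (V (c, q), W (c, q)) * U' e +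
      U (c, q) * (V' e * fderiv ℂ a (V (c, q), W (c, q)) (1, 0) +
        W' e * fderiv ℂ a (V (c, q), W (c, q)) (0, 1)) +
      (V' e * fderiv ℂ b (V (c, q), W (c, q)) (1, 0) +
        W' e * fderiv ℂ b (V (c, q), W (c, q)) (0, 1)) = e.1 := by
    intro e
    have h1 := ((hcomp a T.ha).mul hU1).add (hcomp b T.hb)
    have h2 : (fun p : ℂ × (ℂ × ℂ) => p.1) =ᶠ[𝓝 (c, q)]
        (((fun p => a (V p, W p)) * U) + fun p => b (V p, W p)) := by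
      filter_upwards [hmem] with p hp
      have h3 := T.val p hp
      rw [hZ] at h3
      show p.1 = a (V p, W p) * U p + b (V p, W p)
      rw [← h3, hUd]
    have h4 := (h1.congr_of_eventuallyEq h2).unique
      (hasFDerivAt_fst (𝕜 := ℂ) (p := ((c, q) : ℂ × (ℂ × ℂ))))
    have h5 := congrArg (fun L : ℂ × (ℂ × ℂ) →L[ℂ] ℂ => L e) h4
    have h6 : a (V (c, q), W (c, q)) * U' e + U (c, q) *
        ((fderiv ℂ a (V (c, q), W (c, q))).comp (V'.prod W')) e +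
        ((fderiv ℂ b (V (c, q), W (c, q))).comp (V'.prod W')) e = e.1 := h5
    rw [hval, hval] at h6
    exact h6
  have hJ1 : a (V (c, q), W (c, q)) * J (c, q) =
      V' (0, (1, 0)) * W' (0, (0, 1)) - V' (0, (0, 1)) * W' (0, (1, 0)) := by
    have r0 := hrel (1, (0, 0))
    have r1 := hrel (0, (1, 0))
    have r2 := hrel (0, (0, 1))
    have e0 : ((1, (0, 0)) : ℂ × (ℂ × ℂ)).1 = 1 := rfl
    have e1 : ((0, (1, 0)) : ℂ × (ℂ × ℂ)).1 = 0 := rfl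
    have e2 : ((0, (0, 1)) : ℂ × (ℂ × ℂ)).1 = 0 := rfl
    rw [e0] at r0
    rw [e1] at r1
    rw [e2] at r2
    rw [hJd]
    show a (V (c, q), W (c, q)) *
      (fderiv ℂ U (c, q) (1, (0, 0)) * (fderiv ℂ V (c, q) (0, (1, 0)) * fderiv ℂ W (c, q) (0, (0, 1)) -
        fderiv ℂ V (c, q) (0, (0, 1)) * fderiv ℂ W (c, q) (0, (1, 0))) -
      fderiv ℂ U (c, q) (0, (1, 0)) * (fderiv ℂ V (c, q) (1, (0, 0)) * fderiv ℂ W (c, q) (0, (0, 1)) -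
        fderiv ℂ V (c, q) (0, (0, 1)) * fderiv ℂ W (c, q) (1, (0, 0))) +
      fderiv ℂ U (c, q) (0, (0, 1)) * (fderiv ℂ V (c, q) (1, (0, 0)) * fderiv ℂ W (c, q) (0, (1, 0)) -
        fderiv ℂ V (c, q) (0, (1, 0)) * fderiv ℂ W (c, q) (1, (0, 0)))) = _
    rw [← hU', ← hV', ← hW']
    linear_combination (V' (0, (1, 0)) * W' (0, (0, 1)) - V' (0, (0, 1)) * W' (0, (1, 0))) * r0 -
      (V' (1, (0, 0)) * W' (0, (0, 1)) - V' (0, (0, 1)) * W' (1, (0, 0))) * r1 +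
      (V' (1, (0, 0)) * W' (0, (1, 0)) - V' (0, (1, 0)) * W' (1, (0, 0))) * r2
  -- the derivatives along the fibre
  have hfib : ∀ g : ℂ × ℂ → ℂ, Differentiable ℂ g → ∀ e : ℂ × ℂ,
      fderiv ℂ (fun q => g (Ψ (c, q)).2) q e =
        (e.1 * V' (0, (1, 0)) + e.2 * V' (0, (0, 1))) * fderiv ℂ g (V (c, q), W (c, q)) (1, 0) +
        (e.1 * W' (0, (1, 0)) + e.2 * W' (0, (0, 1))) * fderiv ℂ g (V (c, q), W (c, q)) (0, 1) := by
    intro g hg e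
    have h1 : (fun q => g (Ψ (c, q)).2) = (fun p => g (V p, W p)) ∘ fun q => (c, q) := by
      funext q
      show g (Ψ (c, q)).2 = g (V (c, q), W (c, q))
      rw [hZ]
    rw [h1, ((hcomp g hg).comp q (hasFDerivAt_prodMk_right c q)).fderiv]
    show ((fderiv ℂ g (V (c, q), W (c, q))).comp (V'.prod W')) (0, e) = _
    rw [hval, B_lin3 V' e, B_lin3 W' e]
  have hBf : ∀ e : ℂ × ℂ, fderiv ℂ (fun q => (fun p : ℂ × (ℂ × ℂ) => -(p.2.2 * I p)) (c, q)) q e =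
      e.1 * fderiv ℂ (fun p : ℂ × (ℂ × ℂ) => -(p.2.2 * I p)) (c, q) (0, (1, 0)) - e.2 * H (c, q) := by
    intro e
    have h1 := (hB (c, q) hp).hasFDerivAt
    have h2 : fderiv ℂ (fun q => (fun p : ℂ × (ℂ × ℂ) => -(p.2.2 * I p)) (c, q)) q =
        (fderiv ℂ (fun p : ℂ × (ℂ × ℂ) => -(p.2.2 * I p)) (c, q)).comp
          (ContinuousLinearMap.inr ℂ ℂ (ℂ × ℂ)) :=
      (h1.comp q (hasFDerivAt_prodMk_right c q)).fderiv
    rw [h2]
    show fderiv ℂ (fun p : ℂ × (ℂ × ℂ) => -(p.2.2 * I p)) (c, q) (0, e) = _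
    rw [B_lin3]
    have h3 : fderiv ℂ (fun p : ℂ × (ℂ × ℂ) => -(p.2.2 * I p)) (c, q) (0, (0, 1)) = -H (c, q) := by
      have hline : ∀ τ : ℂ, HasDerivAt (fun τ : ℂ => ((c, (q.1, τ)) : ℂ × (ℂ × ℂ)))
          (0, (0, 1)) τ := by
        intro τ
        exact (hasDerivAt_const τ c).prodMk ((hasDerivAt_const τ q.1).prodMk (hasDerivAt_id τ))
      have hq : ((c, (q.1, q.2)) : ℂ × (ℂ × ℂ)) = (c, q) := rfl
      have h4 : HasDerivAt (fun τ : ℂ => -(τ * I (c, (q.1, τ))))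
          (fderiv ℂ (fun p : ℂ × (ℂ × ℂ) => -(p.2.2 * I p)) (c, q) (0, (0, 1))) q.2 :=
        HasFDerivAt.comp_hasDerivAt (f := fun τ : ℂ => ((c, (q.1, τ)) : ℂ × (ℂ × ℂ))) q.2 h1
          (hline q.2)
      have h5 : HasDerivAt (fun τ : ℂ => I (c, (q.1, τ)))
          (fderiv ℂ I (c, q) (0, (0, 1))) q.2 :=
        HasFDerivAt.comp_hasDerivAt (f := fun τ : ℂ => ((c, (q.1, τ)) : ℂ × (ℂ × ℂ))) q.2
          (hI (c, q) hp).hasFDerivAt (hline q.2)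
      have h6 : (fun τ : ℂ => I (c, (q.1, τ))) =
          fun τ : ℂ => ∫ σ in (0 : ℝ)..1, (1 : ℂ) * (fun τ => H (c, (q.1, τ))) ((σ : ℂ) * τ) := by
        funext τ
        rw [hId, hΘd]
      have h7 : Continuous fun τ : ℂ => H (c, (q.1, τ)) := by
        refine continuous_iff_continuousAt.2 fun τ => ?_
        have h8 : ContinuousAt H (c, (q.1, τ)) :=
          (hH.differentiableAt (hO.mem_nhds (show ((c, (q.1, τ)) : ℂ × (ℂ × ℂ)).1 ≠ 0 from hc))).continuousAt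
        exact ContinuousAt.comp (f := fun τ : ℂ => ((c, (q.1, τ)) : ℂ × (ℂ × ℂ))) h8
          (hline τ).continuousAt
      rw [h6] at h5
      have h9 := (B_one h7 h5).neg
      have h10 : (fun τ : ℂ => -(τ * I (c, (q.1, τ)))) = -fun τ : ℂ => τ *
          ∫ σ in (0 : ℝ)..1, (1 : ℂ) * (fun τ => H (c, (q.1, τ))) ((σ : ℂ) * τ) := by
        funext τ
        have h11 := congrFun h6 τ
        show -(τ * I (c, (q.1, τ))) = -(τ *
          ∫ σ in (0 : ℝ)..1, (1 : ℂ) * (fun τ => H (c, (q.1, τ))) ((σ : ℂ) * τ))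
        rw [← h11]
      rw [h10] at h4
      exact h4.unique h9
    rw [h3]
    ring
  have hHv : H (c, q) = (fderiv ℂ k (V (c, q), W (c, q)) (1, 0) *
      fderiv ℂ a (V (c, q), W (c, q)) (0, 1) - fderiv ℂ k (V (c, q), W (c, q)) (0, 1) *
      fderiv ℂ a (V (c, q), W (c, q)) (1, 0)) * J (c, q) := by
    rw [hHd]
  show a (Ψ (c, q)).2 *
    (fderiv ℂ (fun q => (fun p : ℂ × (ℂ × ℂ) => -(p.2.2 * I p)) (c, q)) q x * y.1 -
      fderiv ℂ (fun q => (fun p : ℂ × (ℂ × ℂ) => -(p.2.2 * I p)) (c, q)) q y * x.1) = _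
  rw [hBf, hBf, hfib k hk, hfib k hk, hfib a T.ha, hfib a T.ha, hZ, hHv]
  linear_combination (x.1 * y.2 - x.2 * y.1) * (fderiv ℂ k (V (c, q), W (c, q)) (1, 0) *
      fderiv ℂ a (V (c, q), W (c, q)) (0, 1) - fderiv ℂ k (V (c, q), W (c, q)) (0, 1) *
      fderiv ℂ a (V (c, q), W (c, q)) (1, 0)) * hJ1

end Pool.Agent.Lib.MP_331bf5_ag
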