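import Pool.Agent.Lib.MP_331bf5_ag.D.P2

/-!
Periods of closed forms.
-/

set_option autoImplicit false

open Complex Set Filter Topology MeasureTheory Metric

namespace Pool.Agent.Lib.MP_331bf5_ag

/-- PROOF: the derivative of `c ↦ ∮ s in C(0, ρ), ϑ (s, c) (1, 0)` is zero on `D` (then it is constant on the open
preconnected set `D`: `IsOpen.is_const_of_deriv_eq_zero` or `IsOpen.exists_is_const_of_fderiv_eq_zero`). By `par`
(with `E = ℂ`, `Θ (c, s) = ϑ (s, c) (1, 0)`, `γ = circleMap 0 ρ`, `w = deriv (circleMap 0 ρ)`, `a = 0`, `b = 2 π`) the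
derivative is `∮ s in C(0, ρ), fderiv ℂ ϑ (s, c) (0, 1) (1, 0) = ∮ s in C(0, ρ), fderiv ℂ ϑ (s, c) (1, 0) (0, 1)`, the
integral of the derivative of `s ↦ ϑ (s, c) (0, 1)`, so zero (`circleIntegral.integral_eq_zero_of_hasDerivWithinAt'`). -/
theorem clos (ϑ : ℂ × ℂ → (ℂ × ℂ →L[ℂ] ℂ)) {O : Set (ℂ × ℂ)} (hO : IsOpen O) (hϑ : DifferentiableOn ℂ ϑ O)
    (hs : ∀ p ∈ O, ∀ x y, fderiv ℂ ϑ p x y = fderiv ℂ ϑ p y x) (ρ : ℝ) (hρ : 0 < ρ) {D : Set ℂ} (hD : IsOpen D)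
    (hDc : IsPreconnected D) (hin : ∀ c ∈ D, ∀ s ∈ sphere (0 : ℂ) ρ, (s, c) ∈ O) (c₁ c₂ : ℂ) (h1 : c₁ ∈ D)
    (h2 : c₂ ∈ D) : (∮ s in C(0, ρ), ϑ (s, c₁) (1, 0)) = ∮ s in C(0, ρ), ϑ (s, c₂) (1, 0) := by
  obtain ⟨O', hO'⟩ : ∃ O' : Set (ℂ × ℂ), O' = Prod.swap ⁻¹' O := ⟨_, rfl⟩
  have hO'o : IsOpen O' := by
    rw [hO']
    exact hO.preimage continuous_swap
  have hfd : ∀ c s : ℂ, (s, c) ∈ O → HasFDerivAt (fun q : ℂ × ℂ => ϑ (Prod.swap q) (1, 0))
      (((ContinuousLinearMap.apply ℂ ℂ ((1, 0) : ℂ × ℂ)).comp (fderiv ℂ ϑ (s, c))).comp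
        ((ContinuousLinearMap.snd ℂ ℂ ℂ).prod (ContinuousLinearMap.fst ℂ ℂ ℂ))) (c, s) := by
    intro c s h
    have h1 : HasFDerivAt ϑ (fderiv ℂ ϑ (s, c)) (s, c) := (hϑ.differentiableAt (hO.mem_nhds h)).hasFDerivAt
    have h2 : HasFDerivAt (fun q : ℂ × ℂ => Prod.swap q)
        ((ContinuousLinearMap.snd ℂ ℂ ℂ).prod (ContinuousLinearMap.fst ℂ ℂ ℂ)) (c, s) :=
      ((ContinuousLinearMap.snd ℂ ℂ ℂ).prod (ContinuousLinearMap.fst ℂ ℂ ℂ)).hasFDerivAt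
    have h3 : HasFDerivAt (fun q : ℂ × ℂ => ϑ (Prod.swap q)) ((fderiv ℂ ϑ (s, c)).comp
        ((ContinuousLinearMap.snd ℂ ℂ ℂ).prod (ContinuousLinearMap.fst ℂ ℂ ℂ))) (c, s) :=
      HasFDerivAt.comp (c, s) (g := ϑ) h1 h2
    exact (ContinuousLinearMap.apply ℂ ℂ ((1, 0) : ℂ × ℂ)).hasFDerivAt.comp (c, s) h3
  have hΘ : DifferentiableOn ℂ (fun q : ℂ × ℂ => ϑ (Prod.swap q) (1, 0)) O' := by
    rintro ⟨c, s⟩ h
    rw [hO'] at h
    exact (hfd c s h).differentiableAt.differentiableWithinAt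
  have hder : ∀ c ∈ D, HasDerivAt (fun c => ∮ s in C(0, ρ), ϑ (s, c) (1, 0)) 0 c := by
    intro c hc
    have hmem : ∀ θ : ℝ, (circleMap 0 ρ θ, c) ∈ O := fun θ => hin c hc _ (circleMap_mem_sphere 0 hρ.le θ)
    have h1 := par (E := ℂ) (fun q : ℂ × ℂ => ϑ (Prod.swap q) (1, 0)) hO'o hΘ (continuous_circleMap 0 ρ)
      (w := deriv (circleMap 0 ρ)) (by
        have : deriv (circleMap 0 ρ) = fun θ => circleMap 0 ρ θ * I := funext fun θ => deriv_circleMap 0 ρ θ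
        rw [this]
        fun_prop) 0 (2 * Real.pi) c (fun θ _ => by
          rw [hO']
          exact hmem θ)
    have h2 : (∫ θ in (0 : ℝ)..(2 * Real.pi), deriv (circleMap 0 ρ) θ •
        (fderiv ℂ (fun q : ℂ × ℂ => ϑ (Prod.swap q) (1, 0)) (c, circleMap 0 ρ θ)).comp
          (ContinuousLinearMap.inl ℂ ℂ ℂ)) = 0 := by
      by_cases hi : IntervalIntegrable (fun θ => deriv (circleMap 0 ρ) θ •
        (fderiv ℂ (fun q : ℂ × ℂ => ϑ (Prod.swap q) (1, 0)) (c, circleMap 0 ρ θ)).comp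
          (ContinuousLinearMap.inl ℂ ℂ ℂ)) volume 0 (2 * Real.pi)
      · refine ContinuousLinearMap.ext_ring ?_
        rw [ContinuousLinearMap.intervalIntegral_apply hi]
        have h3 : (∮ s in C(0, ρ), fderiv ℂ ϑ (s, c) (1, 0) (0, 1)) = 0 := by
          refine circleIntegral.integral_eq_zero_of_hasDerivWithinAt' (f := fun s => ϑ (s, c) (0, 1)) ?_
          intro s hs'
          rw [abs_of_pos hρ] at hs'
          have h4 : HasFDerivAt ϑ (fderiv ℂ ϑ (s, c)) (s, c) :=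
            (hϑ.differentiableAt (hO.mem_nhds (hin c hc s hs'))).hasFDerivAt
          have h5 : HasDerivAt (fun s : ℂ => ((s, c) : ℂ × ℂ)) (1, 0) s :=
            (hasDerivAt_id s).prodMk (hasDerivAt_const s c)
          have h6 : HasDerivAt (fun s : ℂ => ϑ (s, c)) (fderiv ℂ ϑ (s, c) (1, 0)) s :=
            HasFDerivAt.comp_hasDerivAt s (l := ϑ) h4 h5
          exact ((ContinuousLinearMap.apply ℂ ℂ ((0, 1) : ℂ × ℂ)).hasFDerivAt.comp_hasDerivAt s h6).hasDerivWithinAt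
        rw [circleIntegral] at h3
        rw [ContinuousLinearMap.zero_apply]
        refine Eq.trans ?_ h3
        congr 1
        funext θ
        rw [ContinuousLinearMap.smul_apply, (hfd c _ (hmem θ)).fderiv, ← hs _ (hmem θ)]
        simp
      · exact intervalIntegral.integral_undef hi
    rw [h2] at h1
    have h3 := h1.hasDerivAt
    simpa [circleIntegral] using h3
  exact hD.is_const_of_deriv_eq_zero hDc (fun c hc => (hder c hc).differentiableAt.differentiableWithinAt)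
    (fun c hc => (hder c hc).deriv) h1 h2

end Pool.Agent.Lib.MP_331bf5_ag
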