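import Pool.Agent.Lib.MP_331bf5_ag.D.Z

/-!
The end of the proof.
-/

set_option autoImplicit false

open Complex Set Filter Topology MeasureTheory Metric

namespace Pool.Agent.Lib.MP_331bf5_ag

/-- the punctured disc is preconnected -/
private theorem En_conn (δ : ℝ) (hδ : 0 < δ) : IsPreconnected {c : ℂ | c ≠ 0 ∧ ‖c‖ < δ} := by
  have h : {c : ℂ | c ≠ 0 ∧ ‖c‖ < δ} = Complex.exp '' {s : ℂ | s.re < Real.log δ} := by
    ext c
    constructor
    · rintro ⟨h1, h2⟩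
      refine ⟨Complex.log c, ?_, Complex.exp_log h1⟩
      show (Complex.log c).re < Real.log δ
      rw [Complex.log_re]
      exact Real.log_lt_log (norm_pos_iff.2 h1) h2
    · rintro ⟨s, hs, rfl⟩
      refine ⟨Complex.exp_ne_zero s, ?_⟩
      rw [Complex.norm_exp]
      have h3 : Real.exp s.re < Real.exp (Real.log δ) := Real.exp_lt_exp.2 hs
      rwa [Real.exp_log hδ] at h3
  rw [h]
  refine IsPreconnected.image ?_ _ Complex.continuous_exp.continuousOn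
  exact (convex_halfSpace_re_lt (Real.log δ)).isPreconnected

/-- PROOF: the distances `dist z z₀`, `a z = b z = 0`, form a countable set; choose `ε > 0` outside of it (`ε < 1`). On the
compact set `{a = 0} ∩ sphere z₀ ε` the function `b` has no zero, so `‖b‖ ≥ δ > 0` there (any `δ` if the set is empty).
Put `C = 2 ε / δ` and `L z = u₀ • fderiv ℂ a z + fderiv ℂ b z` (continuous, `L z₀ = 0`; `a`, `b` are `C¹`: hypotheses).
Choose `r > 0` with `‖L y‖ * C < 1` if `dist y z₀ < 2 r`, and let `N` be the open set of the `z` with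
`dist z z₀ < min r ε`, `‖b z‖ < δ / 2`, `2 C ‖b z‖ < r`. By `uncount` and `hY` there is `z ∈ N` with `a z = 0`, `b z ≠ 0`. Take
`z`, `κ` from `hK`. The set `{c | 0 < ‖c‖ < δ}` is preconnected, `κ` maps it to `{a = 0}`, never to the sphere
(`‖b (κ c)‖ = ‖c‖ < δ`), and `κ (b z) = z` is in the ball: `dist (κ c) z₀ < ε` there. So `κ` extends to a differentiable
function `κ'` on `ball 0 δ` (`Complex.differentiableOn_update_limUnder_of_bddAbove`, on the two components), with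
`a (κ' c) = 0`, `b (κ' c) = c` by continuity. Cauchy estimates: `‖deriv κ' 0‖ ≤ ε / (δ / 2) = C` and
`‖κ' c - κ' 0‖ ≤ 2 C ‖c‖` for `‖c‖ < δ / 2` (derivative at the points of this ball is at most `ε / (δ / 2)`, for
instance `Complex.dist_le_div_mul_dist_of_mapsTo_ball`). Hence `y = κ' 0` has `dist y z₀ < 2 r` (with `c = b z`). The
derivatives at `0` of `a ∘ κ' = 0` and `b ∘ κ' = id`: `fderiv ℂ a y v = 0`, `fderiv ℂ b y v = 1` for `v = deriv κ' 0`, so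
`1 = ‖L y v‖ ≤ ‖L y‖ * C < 1`. -/
theorem endg (a b : ℂ × ℂ → ℂ) (ha : ContDiff ℂ 1 a) (hb : ContDiff ℂ 1 b) (z₀ : ℂ × ℂ) (u₀ : ℂ) (h1 : a z₀ = 0)
    (h2 : b z₀ = 0) (h3 : u₀ • fderiv ℂ a z₀ + fderiv ℂ b z₀ = 0) (hY : {z | a z = 0 ∧ b z = 0}.Countable)
    (hK : ∀ N : Set (ℂ × ℂ), IsOpen N → (∃ z ∈ N, a z = 0 ∧ b z ≠ 0) →
      ∃ z ∈ N, ∃ κ : ℂ → ℂ × ℂ, a z = 0 ∧ b z ≠ 0 ∧ DifferentiableOn ℂ κ {c | c ≠ 0} ∧ κ (b z) = z ∧
        ∀ c, c ≠ 0 → a (κ c) = 0 ∧ b (κ c) = c) : False := by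
  have hac : Continuous a := ha.continuous
  have hbc : Continuous b := hb.continuous
  -- the radius
  obtain ⟨ε, hε0, hε⟩ : ∃ ε : ℝ, 0 < ε ∧ ∀ z, dist z z₀ = ε → ¬ (a z = 0 ∧ b z = 0) := by
    have hD : ((fun z => dist z z₀) '' {z | a z = 0 ∧ b z = 0}).Countable := hY.image _
    have hd := hD.dense_compl ℝ
    obtain ⟨ε, hε1, hε2⟩ := hd.exists_mem_open (isOpen_Ioo (a := (0 : ℝ)) (b := 1)) ⟨1 / 2, by norm_num, by norm_num⟩
    refine ⟨ε, hε2.1, fun z hz hab => hε1 ⟨z, hab, hz⟩⟩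
  obtain ⟨δ, hδ0, hδ⟩ : ∃ δ : ℝ, 0 < δ ∧ ∀ z ∈ {z | a z = 0} ∩ sphere z₀ ε, δ ≤ ‖b z‖ := by
    have hS : IsCompact ({z | a z = 0} ∩ sphere z₀ ε) :=
      (isCompact_sphere z₀ ε).inter_left (isClosed_eq hac continuous_const)
    refine hS.exists_forall_le' (f := fun z => ‖b z‖) hbc.norm.continuousOn ?_
    intro z hz
    rw [norm_pos_iff]
    intro hb0
    exact hε z hz.2 ⟨hz.1, hb0⟩
  obtain ⟨C, hC⟩ : ∃ C : ℝ, C = 2 * ε / δ := ⟨_, rfl⟩
  have hC0 : 0 < C := by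
    rw [hC]
    positivity
  have hL : Continuous fun z => ‖u₀ • fderiv ℂ a z + fderiv ℂ b z‖ * C := by
    have h5 : Continuous fun z => fderiv ℂ a z := ha.continuous_fderiv one_ne_zero
    have h6 : Continuous fun z => fderiv ℂ b z := hb.continuous_fderiv one_ne_zero
    exact ((h5.const_smul u₀).add h6).norm.mul continuous_const
  obtain ⟨r, hr0, hr⟩ : ∃ r : ℝ, 0 < r ∧ ∀ y, dist y z₀ < 2 * r → ‖u₀ • fderiv ℂ a y + fderiv ℂ b y‖ * C < 1 := by
    have h5 : ∀ᶠ y in 𝓝 z₀, ‖u₀ • fderiv ℂ a y + fderiv ℂ b y‖ * C < 1 := by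
      refine (hL.tendsto z₀).eventually_lt_const ?_
      rw [h3, norm_zero, zero_mul]
      exact one_pos
    obtain ⟨r, hr0, hr⟩ := Metric.eventually_nhds_iff.1 h5
    refine ⟨r / 2, by positivity, fun y hy => hr ?_⟩
    linarith
  -- the neighbourhood
  have hNo : IsOpen {z : ℂ × ℂ | dist z z₀ < min r ε ∧ ‖b z‖ < δ / 2 ∧ 2 * C * ‖b z‖ < r} := by
    refine IsOpen.inter (isOpen_lt (continuous_id.dist continuous_const) continuous_const) (IsOpen.inter ?_ ?_)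
    · exact isOpen_lt hbc.norm continuous_const
    · exact isOpen_lt (continuous_const.mul hbc.norm) continuous_const
  have hN0 : {z : ℂ × ℂ | dist z z₀ < min r ε ∧ ‖b z‖ < δ / 2 ∧ 2 * C * ‖b z‖ < r} ∈ 𝓝 z₀ := by
    refine hNo.mem_nhds ⟨?_, ?_, ?_⟩
    · rw [dist_self]
      exact lt_min hr0 hε0
    · rw [h2, norm_zero]
      positivity
    · rw [h2, norm_zero, mul_zero]
      exact hr0
  have hex : ∃ z ∈ {z : ℂ × ℂ | dist z z₀ < min r ε ∧ ‖b z‖ < δ / 2 ∧ 2 * C * ‖b z‖ < r}, a z = 0 ∧ b z ≠ 0 := by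
    by_contra hcon
    refine uncount a (ha.differentiable one_ne_zero) z₀ h1 _ hN0 (hY.mono ?_)
    intro z hz
    refine ⟨hz.2, ?_⟩
    by_contra hbz
    exact hcon ⟨z, hz.1, hz.2, hbz⟩
  obtain ⟨z₁, ⟨hz1, hz2, hz3⟩, κ, haz, hbz, hκd, hκz, hκ⟩ := hK _ hNo hex
  have hin : ∀ c, c ≠ 0 → ‖c‖ < δ → dist (κ c) z₀ < ε := by
    intro c hc0 hc
    by_contra hcon
    rw [not_lt] at hcon
    have hcont0 : ContinuousOn κ {c : ℂ | c ≠ 0 ∧ ‖c‖ < δ} :=
      ContinuousOn.mono hκd.continuousOn (fun c hc => hc.1)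
    have hcont : ContinuousOn (fun c => dist (κ c) z₀) {c : ℂ | c ≠ 0 ∧ ‖c‖ < δ} :=
      (continuous_id.dist continuous_const).comp_continuousOn hcont0
    have hiv := (En_conn δ hδ0).intermediate_value (a := b z₁) (b := c) ⟨hbz, by linarith⟩ ⟨hc0, hc⟩ hcont
    have hmem : ε ∈ Icc (dist (κ (b z₁)) z₀) (dist (κ c) z₀) := by
      refine ⟨?_, hcon⟩
      rw [hκz]
      exact (hz1.trans_le (min_le_right _ _)).le
    obtain ⟨c', hc', hc'2⟩ := hiv hmem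
    have h5 := hδ (κ c') ⟨(hκ c' hc'.1).1, hc'2⟩
    rw [(hκ c' hc'.1).2] at h5
    exact absurd hc'.2 (not_lt.2 h5)
  obtain ⟨κ', hκ'⟩ : ∃ κ' : ℂ → ℂ × ℂ, κ' = Function.update κ 0 (limUnder (𝓝[≠] 0) κ) := ⟨_, rfl⟩
  have hball : ball (0 : ℂ) δ ∈ 𝓝 (0 : ℂ) := ball_mem_nhds 0 hδ0
  have hκ'd : DifferentiableOn ℂ κ' (ball 0 δ) := by
    rw [hκ']
    refine Complex.differentiableOn_update_limUnder_of_bddAbove hball ?_ ?_
    · exact hκd.mono fun c hc => hc.2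
    · refine ⟨‖z₀‖ + ε, ?_⟩
      rintro _ ⟨c, hc, rfl⟩
      have h5 := hin c hc.2 (by simpa using hc.1)
      rw [dist_eq_norm] at h5
      have h6 : ‖κ c‖ ≤ ‖z₀‖ + ‖κ c - z₀‖ := by
        have h7 := norm_add_le z₀ (κ c - z₀)
        rwa [add_sub_cancel] at h7
      show ‖κ c‖ ≤ ‖z₀‖ + ε
      linarith
  have hκ'eq : ∀ c, c ≠ 0 → κ' c = κ c := by
    intro c hc
    rw [hκ', Function.update_of_ne hc]
  have hκ'c : ContinuousAt κ' 0 := (hκ'd.differentiableAt hball).continuousAt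
  have hlim : ∀ f : ℂ × ℂ → ℂ, Continuous f → ∀ g : ℂ → ℂ, Continuous g → (∀ c, c ≠ 0 → f (κ c) = g c) →
      ∀ c, f (κ' c) = g c := by
    intro f hf g hg hfg c
    by_cases hc : c = 0
    · subst hc
      have h5 : Tendsto (fun c => f (κ' c)) (𝓝[≠] 0) (𝓝 (f (κ' 0))) :=
        ((hf.continuousAt.comp hκ'c).tendsto).mono_left nhdsWithin_le_nhds
      have h6 : Tendsto g (𝓝[≠] 0) (𝓝 (g 0)) := (hg.tendsto 0).mono_left nhdsWithin_le_nhds
      have h7 : (fun c => f (κ' c)) =ᶠ[𝓝[≠] 0] g := by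
        refine eventually_nhdsWithin_of_forall fun c hc => ?_
        show f (κ' c) = g c
        rw [hκ'eq c hc]
        exact hfg c hc
      exact tendsto_nhds_unique h5 (h6.congr' h7.symm)
    · rw [hκ'eq c hc]
      exact hfg c hc
  have hak : ∀ c, a (κ' c) = 0 := hlim a hac (fun _ => 0) continuous_const fun c hc => (hκ c hc).1
  have hbk : ∀ c, b (κ' c) = c := hlim b hbc (fun c => c) continuous_id fun c hc => (hκ c hc).2
  have hdist0 : dist (κ' 0) z₀ ≤ ε := by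
    have h5 : Tendsto (fun c => dist (κ' c) z₀) (𝓝[≠] 0) (𝓝 (dist (κ' 0) z₀)) :=
      (Filter.Tendsto.dist hκ'c (tendsto_const_nhds (x := z₀))).mono_left nhdsWithin_le_nhds
    refine le_of_tendsto h5 ?_
    have h6 : ∀ᶠ c in 𝓝[≠] (0 : ℂ), c ∈ ball (0 : ℂ) δ := mem_nhdsWithin_of_mem_nhds hball
    have h7 : ∀ᶠ c in 𝓝[≠] (0 : ℂ), c ≠ 0 := eventually_mem_nhdsWithin
    filter_upwards [h6, h7] with c hc hc0
    rw [hκ'eq c hc0]
    exact (hin c hc0 (by simpa using hc)).le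
  have hmaps : MapsTo κ' (ball 0 δ) (closedBall (κ' 0) (2 * ε)) := by
    intro c hc
    rw [mem_closedBall]
    have h5 : dist (κ' c) z₀ ≤ ε := by
      by_cases hc0 : c = 0
      · rw [hc0]
        exact hdist0
      · rw [hκ'eq c hc0]
        exact (hin c hc0 (by simpa using hc)).le
    have h6 := dist_triangle_right (κ' c) (κ' 0) z₀
    linarith
  have hder : ‖deriv κ' 0‖ ≤ C := by
    rw [hC]
    exact Complex.norm_deriv_le_div_of_mapsTo_ball hκ'd hmaps hδ0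
  have hbz' : b z₁ ∈ ball (0 : ℂ) δ := by
    rw [mem_ball_zero_iff]
    linarith
  have hdz : dist (κ' (b z₁)) (κ' 0) ≤ C * dist (b z₁) 0 := by
    rw [hC]
    exact Complex.dist_le_div_mul_dist_of_mapsTo_ball hκ'd hmaps hbz'
  rw [hκ'eq _ hbz, hκz, dist_zero_right] at hdz
  have hy : dist (κ' 0) z₀ < 2 * r := by
    have h5 := dist_triangle_left (κ' 0) z₀ z₁
    have h6 : dist z₁ z₀ < r := hz1.trans_le (min_le_left _ _)
    nlinarith
  have hlt := hr _ hy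
  -- the derivatives
  have hv : HasDerivAt κ' (deriv κ' 0) 0 := (hκ'd.differentiableAt hball).hasDerivAt
  have hda : fderiv ℂ a (κ' 0) (deriv κ' 0) = 0 := by
    have h5 : HasFDerivAt a (fderiv ℂ a (κ' 0)) (κ' 0) := (ha.differentiable one_ne_zero _).hasFDerivAt
    have h6 := h5.comp_hasDerivAt (0 : ℂ) hv
    have h7 : (a ∘ κ') = fun _ => 0 := funext hak
    rw [h7] at h6
    exact h6.unique (hasDerivAt_const (0 : ℂ) (0 : ℂ))
  have hdb : fderiv ℂ b (κ' 0) (deriv κ' 0) = 1 := by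
    have h5 : HasFDerivAt b (fderiv ℂ b (κ' 0)) (κ' 0) := (hb.differentiable one_ne_zero _).hasFDerivAt
    have h6 := h5.comp_hasDerivAt (0 : ℂ) hv
    have h7 : (b ∘ κ') = fun c => c := funext hbk
    rw [h7] at h6
    exact h6.unique (hasDerivAt_id (0 : ℂ))
  have h8 : (u₀ • fderiv ℂ a (κ' 0) + fderiv ℂ b (κ' 0)) (deriv κ' 0) = 1 := by
    show u₀ • (fderiv ℂ a (κ' 0) (deriv κ' 0)) + fderiv ℂ b (κ' 0) (deriv κ' 0) = 1
    rw [hda, hdb, smul_zero, zero_add]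
  have h9 := (u₀ • fderiv ℂ a (κ' 0) + fderiv ℂ b (κ' 0)).le_opNorm (deriv κ' 0)
  rw [h8, norm_one] at h9
  have h10 : ‖u₀ • fderiv ℂ a (κ' 0) + fderiv ℂ b (κ' 0)‖ * ‖deriv κ' 0‖ ≤
      ‖u₀ • fderiv ℂ a (κ' 0) + fderiv ℂ b (κ' 0)‖ * C := mul_le_mul_of_nonneg_left hder (norm_nonneg _)
  linarith

end Pool.Agent.Lib.MP_331bf5_ag
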