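import Pool.Agent.Lib.MP_331bf5_ag.D.Per

/-!
The section `κ`.
-/

set_option autoImplicit false

open Complex Set Filter Topology MeasureTheory Metric

namespace Pool.Agent.Lib.MP_331bf5_ag

/-- PROOF: `κ = (h₁, h₂)` with `h₁`, `h₂` from `per` for `k = Prod.fst`, `Prod.snd`. Near `c₁` (where also `c ≠ 0`):
`κ c = ψ (0, c)`, `a (κ c) = 0`, `b (κ c) = c`. The functions `c ↦ a (κ c)` and `c ↦ b (κ c) - c` are analytic on the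
open preconnected set `{c | c ≠ 0}` (`isPreconnected_compl_singleton_of_one_lt_rank`) and vanish near `c₁`, so
everywhere (`AnalyticOnNhd.eqOn_zero_of_preconnected_of_eventuallyEq_zero`). -/
theorem kap {a b : ℂ × ℂ → ℂ} {Φ : ℂ × (ℂ × ℂ) → ℂ × ℂ} {Ψ : ℂ × (ℂ × ℂ) → ℂ × (ℂ × ℂ)} (T : Triv a b Φ Ψ)
    (c₁ : ℂ) (hc₁ : c₁ ≠ 0) (ρ' δ : ℝ) (hρ : 0 < ρ') (hδ : 0 < δ) (ψ : ℂ × ℂ → ℂ × ℂ)
    (hψ : DifferentiableOn ℂ ψ (ball 0 ρ' ×ˢ ball c₁ δ)) (hb : ∀ p ∈ ball 0 ρ' ×ˢ ball c₁ δ, b (ψ p) = p.2)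
    (ha : ∀ p ∈ ball 0 ρ' ×ˢ ball c₁ δ, p.1 ≠ 0 → a (ψ p) ≠ 0) (h0 : a (ψ (0, c₁)) = 0) :
    ∃ κ : ℂ → ℂ × ℂ, DifferentiableOn ℂ κ {c | c ≠ 0} ∧ (∀ c, c ≠ 0 → a (κ c) = 0 ∧ b (κ c) = c) ∧
      κ c₁ = ψ (0, c₁) := by
  obtain ⟨h₁, hd₁, h1⟩ := per T c₁ hc₁ ρ' δ hρ hδ ψ hψ hb ha h0 Prod.fst differentiable_fst
  obtain ⟨h₂, hd₂, h2⟩ := per T c₁ hc₁ ρ' δ hρ hδ ψ hψ hb ha h0 Prod.snd differentiable_snd
  have hκ : DifferentiableOn ℂ (fun c => (h₁ c, h₂ c)) {c : ℂ | c ≠ 0} := hd₁.prodMk hd₂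
  have hopen : IsOpen {c : ℂ | c ≠ 0} := isOpen_ne
  have hpre : IsPreconnected {c : ℂ | c ≠ 0} := by
    have h : IsPreconnected ({(0:ℂ)}ᶜ) := (isConnected_compl_singleton_of_one_lt_rank
      (by rw [Complex.rank_real_complex]; exact Cardinal.one_lt_two) 0).isPreconnected
    exact h
  have hnear : ∀ c ∈ ball c₁ δ, c ≠ 0 →
      a (h₁ c, h₂ c) = 0 ∧ b (h₁ c, h₂ c) = c ∧ (h₁ c, h₂ c) = ψ (0, c) := by
    intro c hc hc0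
    obtain ⟨e1, e2⟩ := h1 c hc hc0
    obtain ⟨_, e3⟩ := h2 c hc hc0
    have e4 : (h₁ c, h₂ c) = ψ (0, c) := Prod.ext e2 e3
    rw [e4]
    exact ⟨e1, hb (0, c) ⟨mem_ball_self hρ, hc⟩, rfl⟩
  have hev : ∀ᶠ c in 𝓝 c₁, c ∈ ball c₁ δ ∧ c ≠ 0 :=
    (eventually_mem_set.2 (ball_mem_nhds c₁ hδ)).and
      (eventually_mem_set.2 (hopen.mem_nhds (show c₁ ∈ {c : ℂ | c ≠ 0} from hc₁)))
  have hA : EqOn (fun c => a (h₁ c, h₂ c)) 0 {c : ℂ | c ≠ 0} := by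
    refine AnalyticOnNhd.eqOn_zero_of_preconnected_of_eventuallyEq_zero
      ((T.ha.comp_differentiableOn hκ).analyticOnNhd hopen) hpre
      (show c₁ ∈ {c : ℂ | c ≠ 0} from hc₁) ?_
    filter_upwards [hev] with c hc
    exact (hnear c hc.1 hc.2).1
  have hB : EqOn (fun c => b (h₁ c, h₂ c) - c) 0 {c : ℂ | c ≠ 0} := by
    refine AnalyticOnNhd.eqOn_zero_of_preconnected_of_eventuallyEq_zero
      (((T.hb.comp_differentiableOn hκ).sub differentiableOn_id).analyticOnNhd hopen) hpre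
      (show c₁ ∈ {c : ℂ | c ≠ 0} from hc₁) ?_
    filter_upwards [hev] with c hc
    exact sub_eq_zero.2 (hnear c hc.1 hc.2).2.1
  exact ⟨fun c => (h₁ c, h₂ c), hκ, fun c hc => ⟨hA hc, sub_eq_zero.1 (hB hc)⟩,
    (hnear c₁ (mem_ball_self hδ) hc₁).2.2⟩

end Pool.Agent.Lib.MP_331bf5_ag
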