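import Mathlib

/-!
Coordinates with `b` as the second one.
-/

set_option autoImplicit false

open Complex Set Filter Topology MeasureTheory Metric

namespace Pool.Agent.Lib.MP_331bf5_ag

/-- A coordinate which, together with a nonzero functional, is injective. -/
private theorem L1_coord (D : ℂ × ℂ →L[ℂ] ℂ) (hD : D ≠ 0) :
    ∃ ℓ : ℂ × ℂ →L[ℂ] ℂ, ∀ w : ℂ × ℂ, ℓ w = 0 → D w = 0 → w = 0 := by
  by_cases h : D (0, 1) = 0
  · have h10 : D (1, 0) ≠ 0 := by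
      intro h1
      apply hD
      ext
      · simpa using h1
      · simpa using h
    refine ⟨ContinuousLinearMap.snd ℂ ℂ ℂ, ?_⟩
    rintro ⟨w1, w2⟩ h2 h3
    have h2' : w2 = 0 := h2
    subst h2'
    have h4 : ((w1, 0) : ℂ × ℂ) = w1 • ((1, 0) : ℂ × ℂ) := by simp
    rw [h4, map_smul, smul_eq_mul] at h3
    rcases mul_eq_zero.1 h3 with h5 | h5
    · rw [h5]
      rfl
    · exact absurd h5 h10
  · refine ⟨ContinuousLinearMap.fst ℂ ℂ ℂ, ?_⟩
    rintro ⟨w1, w2⟩ h2 h3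
    have h2' : w1 = 0 := h2
    subst h2'
    have h4 : ((0, w2) : ℂ × ℂ) = w2 • ((0, 1) : ℂ × ℂ) := by simp
    rw [h4, map_smul, smul_eq_mul] at h3
    rcases mul_eq_zero.1 h3 with h5 | h5
    · rw [h5]
      rfl
    · exact absurd h5 h

/-- PROOF: choose a coordinate `ℓ ∈ {fst, snd}` (continuous linear) such that `(ℓ, fderiv ℂ b z)` is injective on
`ℂ × ℂ` (if `fderiv ℂ b z (0, 1) ≠ 0` take `fst`, otherwise `snd`). The map `z' ↦ (ℓ (z' - z), b z')` has an invertible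
strict derivative at `z` (`b` is `C¹`; `LinearEquiv.ofInjectiveEndo` and `LinearEquiv.toContinuousLinearEquiv`), so a
local inverse `ψ` (`HasStrictFDerivAt.toOpenPartialHomeomorph`), which is differentiable near `(0, b z)` (use
`ContDiffAt.to_localInverse` with `n = 1`, `ContDiffAt.eventually`; `b` is `C¹`: hypothesis `hb1`). -/
theorem chart (b : ℂ × ℂ → ℂ) (hb : Differentiable ℂ b) (hb1 : ContDiff ℂ 1 b) (z : ℂ × ℂ) (hd : fderiv ℂ b z ≠ 0) :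
    ∃ (ε : ℝ) (ψ : ℂ × ℂ → ℂ × ℂ), 0 < ε ∧ DifferentiableOn ℂ ψ (ball 0 ε ×ˢ ball (b z) ε) ∧ ψ (0, b z) = z ∧
      (∀ p ∈ ball 0 ε ×ˢ ball (b z) ε, b (ψ p) = p.2) ∧
      ∀ᶠ z' in 𝓝 z, ∃ p ∈ ball 0 ε ×ˢ ball (b z) ε, ψ p = z' := by
  obtain ⟨ℓ, hℓ⟩ := L1_coord (fderiv ℂ b z) hd
  -- the linear equivalence
  have hinj : Function.Injective ((ℓ.prod (fderiv ℂ b z) : ℂ × ℂ →L[ℂ] ℂ × ℂ) : ℂ × ℂ →ₗ[ℂ] ℂ × ℂ) := by
    rw [injective_iff_map_eq_zero]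
    intro w hw
    have hw' : (ℓ w, fderiv ℂ b z w) = ((0 : ℂ), (0 : ℂ)) := hw
    exact hℓ w (Prod.ext_iff.1 hw').1 (Prod.ext_iff.1 hw').2
  let E : (ℂ × ℂ) ≃L[ℂ] (ℂ × ℂ) :=
    (LinearEquiv.ofInjectiveEndo ((ℓ.prod (fderiv ℂ b z) : ℂ × ℂ →L[ℂ] ℂ × ℂ) : ℂ × ℂ →ₗ[ℂ] ℂ × ℂ)
      hinj).toContinuousLinearEquiv
  have hE : (E : ℂ × ℂ →L[ℂ] ℂ × ℂ) = ℓ.prod (fderiv ℂ b z) := by
    apply ContinuousLinearMap.ext
    intro w
    rfl
  let F : ℂ × ℂ → ℂ × ℂ := fun z' => (ℓ (z' - z), b z')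
  have hFz : F z = (0, b z) := by
    simp only [F, sub_self, map_zero]
  have hFc : ContDiffAt ℂ 1 F z := by
    apply ContDiff.contDiffAt
    exact (ℓ.contDiff.comp (contDiff_id.sub contDiff_const)).prodMk hb1
  have hFd : HasFDerivAt F (E : ℂ × ℂ →L[ℂ] ℂ × ℂ) z := by
    rw [hE]
    apply HasFDerivAt.prodMk
    · have h1 : HasFDerivAt (fun z' : ℂ × ℂ => z' - z) (ContinuousLinearMap.id ℂ (ℂ × ℂ)) z :=
        (hasFDerivAt_id z).sub_const z
      exact ℓ.hasFDerivAt.comp z h1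
    · exact (hb z).hasFDerivAt
  let e := hFc.toOpenPartialHomeomorph F hFd one_ne_zero
  have hecoe : (e : ℂ × ℂ → ℂ × ℂ) = F := ContDiffAt.toOpenPartialHomeomorph_coe hFc hFd one_ne_zero
  have hzs : z ∈ e.source := ContDiffAt.mem_toOpenPartialHomeomorph_source hFc hFd one_ne_zero
  have hzt : F z ∈ e.target := ContDiffAt.image_mem_toOpenPartialHomeomorph_target hFc hFd one_ne_zero
  have hψc : ContDiffAt ℂ 1 e.symm (F z) := hFc.to_localInverse hFd one_ne_zero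
  have hev : ∀ᶠ p in 𝓝 (F z), p ∈ e.target ∧ DifferentiableAt ℂ e.symm p := by
    have h1 : ∀ᶠ p in 𝓝 (F z), p ∈ e.target := e.open_target.mem_nhds hzt
    have h2 : ∀ᶠ p in 𝓝 (F z), ContDiffAt ℂ 1 e.symm p := hψc.eventually (by simp)
    filter_upwards [h1, h2] with p hp1 hp2
    exact ⟨hp1, hp2.differentiableAt one_ne_zero⟩
  obtain ⟨ε, hε, hball⟩ := Metric.eventually_nhds_iff_ball.1 hev
  have hprod : ball (0 : ℂ) ε ×ˢ ball (b z) ε = ball (F z) ε := by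
    rw [hFz, ball_prod_same]
  refine ⟨ε, e.symm, hε, ?_, ?_, ?_, ?_⟩
  · intro p hp
    rw [hprod] at hp
    exact (hball p hp).2.differentiableWithinAt
  · rw [← hFz, ← hecoe]
    exact e.left_inv hzs
  · intro p hp
    rw [hprod] at hp
    have h1 : e (e.symm p) = p := e.right_inv (hball p hp).1
    rw [hecoe] at h1
    exact congrArg Prod.snd h1
  · have h1 : ∀ᶠ z' in 𝓝 z, z' ∈ e.source := e.open_source.mem_nhds hzs
    have h2 : ∀ᶠ z' in 𝓝 z, F z' ∈ ball (F z) ε :=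
      hFc.continuousAt.eventually (ball_mem_nhds _ hε)
    filter_upwards [h1, h2] with z' hz1 hz2
    refine ⟨F z', ?_, ?_⟩
    · rw [hprod]
      exact hz2
    · rw [← hecoe]
      exact e.left_inv hz1

end Pool.Agent.Lib.MP_331bf5_ag
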