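import Pool.Agent.Lib.MP_331bf5_ag.D.P1

/-!
A point of the zero set where the order on the lines `c = const` is minimal.
-/

set_option autoImplicit false

open Complex Set Filter Topology MeasureTheory Metric

namespace Pool.Agent.Lib.MP_331bf5_ag

/-- The derivatives in the first variable. -/
private noncomputable def L2_A (α : ℂ × ℂ → ℂ) : ℕ → ℂ × ℂ → ℂ
  | 0 => α
  | n + 1 => fun p => fderiv ℂ (L2_A α n) p (1, 0)

private theorem L2_diff {α : ℂ × ℂ → ℂ} {O : Set (ℂ × ℂ)} (hO : IsOpen O) (hα : DifferentiableOn ℂ α O) (n : ℕ) :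
    DifferentiableOn ℂ (L2_A α n) O := by
  induction n with
  | zero => exact hα
  | succ n ih =>
    have h1 : ContDiffOn ℂ 2 (L2_A α n) O := osg hO ih 2
    have h2 : DifferentiableOn ℂ (fderiv ℂ (L2_A α n)) O :=
      (h1.fderiv_of_isOpen hO (m := 1) (by norm_num)).differentiableOn one_ne_zero
    intro p hp
    exact (h2 p hp).clm_apply (differentiableWithinAt_const _)

private theorem L2_deriv {α : ℂ × ℂ → ℂ} {O : Set (ℂ × ℂ)} (hO : IsOpen O) (hα : DifferentiableOn ℂ α O) (n : ℕ)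
    {p : ℂ × ℂ} (hp : p ∈ O) : HasDerivAt (fun s => L2_A α n (s, p.2)) (L2_A α (n + 1) p) p.1 := by
  have h1 : HasFDerivAt (L2_A α n) (fderiv ℂ (L2_A α n) p) p :=
    ((L2_diff hO hα n).differentiableAt (hO.mem_nhds hp)).hasFDerivAt
  have h2 : HasDerivAt (fun s : ℂ => (s, p.2)) ((1 : ℂ), (0 : ℂ)) p.1 :=
    (hasDerivAt_id p.1).prodMk (hasDerivAt_const p.1 p.2)
  exact HasFDerivAt.comp_hasDerivAt p.1 (show HasFDerivAt (L2_A α n) (fderiv ℂ (L2_A α n) p) (p.1, p.2) from h1) h2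

private theorem L2_iter {α : ℂ × ℂ → ℂ} {O : Set (ℂ × ℂ)} (hO : IsOpen O) (hα : DifferentiableOn ℂ α O) (c : ℂ)
    (n : ℕ) : ∀ s : ℂ, (s, c) ∈ O → iteratedDeriv n (fun s => α (s, c)) s = L2_A α n (s, c) := by
  induction n with
  | zero =>
    intro s _
    rw [iteratedDeriv_zero]
    rfl
  | succ n ih =>
    intro s hs
    rw [iteratedDeriv_succ]
    have h1 : IsOpen {s : ℂ | (s, c) ∈ O} := hO.preimage (by fun_prop)
    have h2 : iteratedDeriv n (fun s => α (s, c)) =ᶠ[𝓝 s] fun s => L2_A α n (s, c) :=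
      Filter.Eventually.mono (h1.mem_nhds hs : ∀ᶠ s' in 𝓝 s, (s', c) ∈ O) fun s' hs' => ih s' hs'
    rw [h2.deriv_eq]
    exact (L2_deriv hO hα n (p := (s, c)) hs).deriv

private theorem L2_fin {α : ℂ × ℂ → ℂ} {O : Set (ℂ × ℂ)} (hO : IsOpen O) (hα : DifferentiableOn ℂ α O)
    (p₀ : ℂ × ℂ) (hp₀ : p₀ ∈ O) (hf : ∃ᶠ s in 𝓝 p₀.1, α (s, p₀.2) ≠ 0) : ∃ n, L2_A α n p₀ ≠ 0 := by
  by_contra hcon
  push Not at hcon
  apply hf
  have h1 : IsOpen {s : ℂ | (s, p₀.2) ∈ O} := hO.preimage (by fun_prop)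
  obtain ⟨r, hr, hb⟩ := Metric.isOpen_iff.1 h1 p₀.1 hp₀
  have h2 : DifferentiableOn ℂ (fun s => α (s, p₀.2)) (ball p₀.1 r) := by
    intro s hs
    exact (L2_deriv hO hα 0 (p := (s, p₀.2)) (hb hs)).differentiableAt.differentiableWithinAt
  refine Filter.Eventually.mono (ball_mem_nhds p₀.1 hr : ∀ᶠ s in 𝓝 p₀.1, s ∈ ball p₀.1 r) fun s hs => ?_
  rw [not_not]
  have h3 := Complex.hasSum_taylorSeries_on_ball h2 hs
  have h4 : ∀ n : ℕ, ((n.factorial : ℂ))⁻¹ • (s - p₀.1) ^ n • iteratedDeriv n (fun s => α (s, p₀.2)) p₀.1 = 0 := by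
    intro n
    rw [L2_iter hO hα p₀.2 n p₀.1 hp₀]
    have h5 : L2_A α n (p₀.1, p₀.2) = 0 := hcon n
    rw [h5, smul_zero, smul_zero]
  simp only [h4] at h3
  exact h3.unique hasSum_zero

/-- PROOF: for a zero `p = (s, c) ∈ O` of `α` let `ord p ∈ ℕ∞` be the order at `s` of `α (·, c)`: the least `j` with
`∂_s^j α (p) ≠ 0` (`∂_s^j α` is holomorphic on `O` by `osg`, it is the `j`-th iterated derivative of `α (·, c)` at `s`).
`ord p₀ < ∞` by `hf` (identity theorem in one variable). Let `p₁ = (s₁, c₁)` be a zero of `α` in `O` with minimal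
`m = ord p₁ ≥ 1` (`Nat.find` or `WellFounded.min`). Then `β = ∂_s^(m-1) α` vanishes at every zero of `α` in `O` and
`∂_s β (p₁) ≠ 0`. The map `(s, c) ↦ (β (s, c), c)` has an invertible strict derivative at `p₁`; its local inverse is
`(σ, c) ↦ (χ (σ, c), c)` with `χ` holomorphic near `(0, c₁)`, `χ (0, c₁) = s₁`, `β (χ (σ, c), c) = σ`; shrink so that
`(χ p, p.2) ∈ O`. If `α (χ p, p.2) = 0`, then `p.1 = β (χ p, p.2) = 0`. -/
theorem minord (α : ℂ × ℂ → ℂ) {O : Set (ℂ × ℂ)} (hO : IsOpen O) (hα : DifferentiableOn ℂ α O) (p₀ : ℂ × ℂ)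
    (hp₀ : p₀ ∈ O) (h0 : α p₀ = 0) (hf : ∃ᶠ s in 𝓝 p₀.1, α (s, p₀.2) ≠ 0) :
    ∃ (c₁ : ℂ) (ρ' δ : ℝ) (χ : ℂ × ℂ → ℂ), 0 < ρ' ∧ 0 < δ ∧ DifferentiableOn ℂ χ (ball 0 ρ' ×ˢ ball c₁ δ) ∧
      (∀ p ∈ ball 0 ρ' ×ˢ ball c₁ δ, (χ p, p.2) ∈ O) ∧
      (∀ p ∈ ball 0 ρ' ×ˢ ball c₁ δ, p.1 ≠ 0 → α (χ p, p.2) ≠ 0) ∧ α (χ (0, c₁), c₁) = 0 := by
  classical
  have hex : ∃ n, ∃ p ∈ O, α p = 0 ∧ L2_A α n p ≠ 0 := by
    obtain ⟨n, hn⟩ := L2_fin hO hα p₀ hp₀ hf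
    exact ⟨n, p₀, hp₀, h0, hn⟩
  obtain ⟨p₁, hp₁, hz₁, hn₁⟩ := Nat.find_spec hex
  have hmin : ∀ k < Nat.find hex, ∀ p ∈ O, α p = 0 → L2_A α k p = 0 := by
    intro k hk p hp hz
    by_contra h
    exact Nat.find_min hex hk ⟨p, hp, hz, h⟩
  obtain ⟨m, hm⟩ : ∃ m, Nat.find hex = m + 1 := by
    refine ⟨Nat.find hex - 1, ?_⟩
    have h1 : Nat.find hex ≠ 0 := by
      intro h
      rw [h] at hn₁
      exact hn₁ hz₁
    omega
  rw [hm] at hn₁ hmin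
  set β := L2_A α m with hβ
  have hβ0 : ∀ p ∈ O, α p = 0 → β p = 0 := hmin m (Nat.lt_succ_self m)
  have hβc : ContDiffAt ℂ 1 β p₁ := (osg hO (L2_diff hO hα m) 1).contDiffAt (hO.mem_nhds hp₁)
  have hβd : HasFDerivAt β (fderiv ℂ β p₁) p₁ :=
    ((L2_diff hO hα m).differentiableAt (hO.mem_nhds hp₁)).hasFDerivAt
  set a : ℂ := fderiv ℂ β p₁ (1, 0) with ha
  set b : ℂ := fderiv ℂ β p₁ (0, 1) with hb
  have ha0 : a ≠ 0 := hn₁
  have hab : ∀ v : ℂ × ℂ, fderiv ℂ β p₁ v = a * v.1 + b * v.2 := by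
    intro v
    have h1 : v = v.1 • ((1 : ℂ), (0 : ℂ)) + v.2 • ((0 : ℂ), (1 : ℂ)) := by
      ext <;> simp
    conv_lhs => rw [h1, map_add, map_smul, map_smul]
    rw [smul_eq_mul, smul_eq_mul, ← ha, ← hb]
    ring
  let e : (ℂ × ℂ) ≃L[ℂ] (ℂ × ℂ) := ContinuousLinearEquiv.equivOfInverse
    ((fderiv ℂ β p₁).prod (ContinuousLinearMap.snd ℂ ℂ ℂ))
    ((a⁻¹ • (ContinuousLinearMap.fst ℂ ℂ ℂ - b • ContinuousLinearMap.snd ℂ ℂ ℂ)).prod
      (ContinuousLinearMap.snd ℂ ℂ ℂ))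
    (by
      intro v
      ext
      · simp only [ContinuousLinearMap.prod_apply, smul_apply,
          sub_apply, ContinuousLinearMap.coe_fst', ContinuousLinearMap.coe_snd', smul_eq_mul, hab]
        field_simp
        ring
      · simp)
    (by
      intro v
      ext
      · simp only [ContinuousLinearMap.prod_apply, smul_apply,
          sub_apply, ContinuousLinearMap.coe_fst', ContinuousLinearMap.coe_snd', smul_eq_mul, hab]
        field_simp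
        ring
      · simp)
  let Ψ : ℂ × ℂ → ℂ × ℂ := fun p => (β p, p.2)
  have hΨc : ContDiffAt ℂ 1 Ψ p₁ := hβc.prodMk contDiffAt_snd
  have hΨd : HasFDerivAt Ψ (e : (ℂ × ℂ) →L[ℂ] (ℂ × ℂ)) p₁ := hβd.prodMk hasFDerivAt_snd
  have hs := hΨc.hasStrictFDerivAt' hΨd one_ne_zero
  set g := hΨc.localInverse hΨd one_ne_zero with hg
  have hΨ1 : Ψ p₁ = (0, p₁.2) := by
    show (β p₁, p₁.2) = (0, p₁.2)
    rw [hβ0 p₁ hp₁ hz₁]
  have hg1 : g (0, p₁.2) = p₁ := by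
    rw [← hΨ1]
    exact hΨc.localInverse_apply_image hΨd one_ne_zero
  have hgc : ContDiffAt ℂ 1 g (0, p₁.2) := by
    rw [← hΨ1]
    exact hΨc.to_localInverse hΨd one_ne_zero
  have h1 : ∀ᶠ q in 𝓝 ((0 : ℂ), p₁.2), DifferentiableAt ℂ g q :=
    (hgc.eventually (by simp)).mono fun q hq => hq.differentiableAt one_ne_zero
  have h2 : ∀ᶠ q in 𝓝 ((0 : ℂ), p₁.2), Ψ (g q) = q := by
    rw [← hΨ1]
    exact hs.eventually_right_inverse
  have h3 : ∀ᶠ q in 𝓝 ((0 : ℂ), p₁.2), g q ∈ O := by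
    refine hgc.continuousAt.eventually_mem ?_
    rw [hg1]
    exact hO.mem_nhds hp₁
  obtain ⟨r, hr, hball⟩ := Metric.eventually_nhds_iff_ball.1 (h1.and (h2.and h3))
  rw [← ball_prod_same] at hball
  have hsnd : ∀ q ∈ ball (0 : ℂ) r ×ˢ ball p₁.2 r, ((g q).1, q.2) = g q := by
    intro q hq
    have h4 := congrArg Prod.snd (hball q hq).2.1
    exact Prod.ext rfl h4.symm
  refine ⟨p₁.2, r, r, fun q => (g q).1, hr, hr, ?_, ?_, ?_, ?_⟩
  · intro q hq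
    exact (hball q hq).1.fst.differentiableWithinAt
  · intro q hq
    rw [hsnd q hq]
    exact (hball q hq).2.2
  · intro q hq hq1 hz
    rw [hsnd q hq] at hz
    have h4 := congrArg Prod.fst (hball q hq).2.1
    have h5 : β (g q) = q.1 := h4
    rw [hβ0 (g q) (hball q hq).2.2 hz] at h5
    exact hq1 h5.symm
  · show α ((g (0, p₁.2)).1, p₁.2) = 0
    rw [hg1]
    exact hz₁

end Pool.Agent.Lib.MP_331bf5_ag
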