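import Pool.Agent.Lib.MP_331bf5_ag.D.Hyp

/-!
The curve `b = b z` near a zero `z` of `a`.
-/

set_option autoImplicit false

open Complex Set Filter Topology MeasureTheory Metric

namespace Pool.Agent.Lib.MP_331bf5_ag

private theorem nz_strict {b : ℂ × ℂ → ℂ} (hb : Differentiable ℂ b) (z : ℂ × ℂ) :
    HasStrictFDerivAt b (fderiv ℂ b z) z := by
  have h1 : ContDiffOn ℂ ((1 : ℕ) : WithTop ℕ∞) b univ := osg isOpen_univ hb.differentiableOn 1
  have h2 : ContDiffAt ℂ ((1 : ℕ) : WithTop ℕ∞) b z := (contDiffOn_univ.1 h1).contDiffAt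
  exact h2.hasStrictFDerivAt (by simp)

/-- If `a` is zero on the curve `b = b z` near `z`, then `a` is bounded by `b - b z` near `z`. -/
private theorem nz_bound {a b : ℂ × ℂ → ℂ} (ha : Differentiable ℂ a) (hb : Differentiable ℂ b) (z : ℂ × ℂ)
    (hd : fderiv ℂ b z ≠ 0) (h0 : ∀ᶠ z' in 𝓝 z, b z' = b z → a z' = 0) :
    ∃ M : ℝ, 0 ≤ M ∧ ∀ᶠ z' in 𝓝 z, ‖a z'‖ ≤ M * ‖b z' - b z‖ := by
  obtain ⟨e, he⟩ : ∃ e, fderiv ℂ b z e = 1 := by
    obtain ⟨e, he⟩ : ∃ e, fderiv ℂ b z e ≠ 0 := by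
      by_contra h
      push Not at h
      exact hd (ContinuousLinearMap.ext h)
    exact ⟨(fderiv ℂ b z e)⁻¹ • e, by rw [map_smul, smul_eq_mul, inv_mul_cancel₀ he]⟩
  have he0 : e ≠ 0 := by
    rintro rfl
    rw [map_zero] at he
    exact zero_ne_one he
  let R : (fderiv ℂ b z).NonlinearRightInverse :=
    { toFun := fun y => y • e
      nnnorm := ‖e‖₊
      bound' := fun y => by
        rw [norm_smul, coe_nnnorm, mul_comm]
      right_inv' := fun y => by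
        rw [map_smul, he, smul_eq_mul, mul_one] }
  have hR : (R.nnnorm : ℝ) = ‖e‖ := rfl
  have hN : 0 < ‖e‖ := norm_pos_iff.2 he0
  have hc : 0 < ‖e‖₊⁻¹ / 2 := by
    have : 0 < ‖e‖₊ := nnnorm_pos.2 he0
    positivity
  obtain ⟨s, hs, hap⟩ := (nz_strict hb z).approximates_deriv_on_nhds (c := ‖e‖₊⁻¹ / 2) (Or.inr hc)
  obtain ⟨K, s', hs', hK⟩ := (nz_strict ha z).exists_lipschitzOnWith
  obtain ⟨δ, hδ, hsub⟩ := nhds_basis_closedBall.mem_iff.1 (inter_mem (inter_mem hs hs') h0)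
  refine ⟨K * (2 * ‖e‖), by positivity, ?_⟩
  have e1 : ∀ᶠ z' in 𝓝 z, dist z' z ≤ δ / 2 :=
    (nhds_basis_closedBall.mem_iff.2 ⟨δ / 2, by positivity, Subset.rfl⟩ : closedBall z (δ / 2) ∈ 𝓝 z)
  have e2 : ∀ᶠ z' in 𝓝 z, 2 * ‖e‖ * ‖b z' - b z‖ ≤ δ / 2 := by
    have h1 : ContinuousAt (fun z' => 2 * ‖e‖ * ‖b z' - b z‖) z :=
      (((hb z).continuousAt.sub continuousAt_const).norm).const_mul _
    have h2 : 2 * ‖e‖ * ‖b z - b z‖ < δ / 2 := by
      rw [sub_self, norm_zero, mul_zero]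
      positivity
    exact (h1.eventually (Iio_mem_nhds h2)).mono fun z' h => le_of_lt h
  filter_upwards [e1, e2] with z' h1 h2
  have hball : closedBall z' (2 * ‖e‖ * ‖b z' - b z‖) ⊆ closedBall z δ :=
    closedBall_subset_closedBall' (by linarith)
  have h3 := hap.surjOn_closedBall_of_nonlinearRightInverse R
    (ε := 2 * ‖e‖ * ‖b z' - b z‖) (b := z') (by positivity)
    (fun w hw => (hsub (hball hw)).1.1)
  have h4 : b z ∈ closedBall (b z') (((R.nnnorm : ℝ)⁻¹ - ((‖e‖₊⁻¹ / 2 : NNReal) : ℝ)) *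
      (2 * ‖e‖ * ‖b z' - b z‖)) := by
    rw [mem_closedBall, dist_comm, dist_eq_norm, hR, NNReal.coe_div, NNReal.coe_inv, coe_nnnorm]
    refine le_of_eq ?_
    have h5 : ((2 : NNReal) : ℝ) = 2 := rfl
    rw [h5]
    field_simp
    ring
  obtain ⟨w, hw, hbw⟩ := h3 h4
  have haw : a w = 0 := (hsub (hball hw)).2 hbw
  have h6 : z' ∈ closedBall z δ := by
    rw [mem_closedBall]
    linarith
  have h7 := hK.dist_le_mul z' (hsub h6).1.2 w (hsub (hball hw)).1.2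
  rw [haw, dist_zero_right] at h7
  refine h7.trans ?_
  rw [mul_assoc (K : ℝ)]
  rw [mem_closedBall, dist_comm] at hw
  exact mul_le_mul_of_nonneg_left hw K.2

/-- PROOF: let `c = b z`. First part: if `fderiv ℂ b z = 0`, the derivative of `f r = a r.2 * r.1 + b r.2` at `(0, z)` is
zero (`a z = 0`); but `f (Ψ p) = p.1` near `(c, Φ (0, z))` and `Ψ (c, Φ (0, z)) = (0, z)`: the derivative of `p ↦ p.1` in
the direction `(1, 0)` would be zero. Second part: suppose `a z' = 0` for all `z'` near `z` with `b z' = c`. Then there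
are `M` and a neighbourhood `N` of `z` with `‖a z'‖ ≤ M ‖b z' - c‖` on `N`: choose `e` with `fderiv ℂ b z e = 1`; by the
implicit function theorem (or: for `z'` near `z` the function `t ↦ b (z' + t • e)` takes the value `c` at some `t` with
`‖t‖ ≤ 2 ‖b z' - c‖`, for instance by `HasStrictFDerivAt` of the map `z' ↦ (ℓ z', b z')` and its local inverse, which is
Lipschitz), and `a` vanishes at `z' + t • e` and is Lipschitz near `z`. The entire function
`A q = a (Ψ (c, q)).2` of `q ∈ ℂ × ℂ` is not identically zero (for `a z₁ ≠ 0` take `r = ((c - b z₁) / a z₁, z₁)`,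
`q = Φ r`), so there are points `q → q₀ = Φ (0, z)` with `A q ≠ 0` (otherwise `A` is zero near `q₀` and so everywhere:
restrict to complex lines through `q₀`). Put `(u', z') = Ψ (c, q) → Ψ (c, q₀) = (0, z)`: `a z' * u' + b z' = c`, so
`0 < ‖a z'‖ ≤ M ‖a z'‖ ‖u'‖`, impossible for `M ‖u'‖ < 1`. -/
theorem nz {a b : ℂ × ℂ → ℂ} {Φ : ℂ × (ℂ × ℂ) → ℂ × ℂ} {Ψ : ℂ × (ℂ × ℂ) → ℂ × (ℂ × ℂ)} (T : Triv a b Φ Ψ)
    (z : ℂ × ℂ) (hz : a z = 0) (hbz : b z ≠ 0) :
    fderiv ℂ b z ≠ 0 ∧ ∃ᶠ z' in 𝓝 z, b z' = b z ∧ a z' ≠ 0 := by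
  have hop : IsOpen {p : ℂ × (ℂ × ℂ) | p.1 ≠ 0} := isOpen_ne_fun continuous_fst continuous_const
  have hΨd : ∀ q : ℂ × ℂ, DifferentiableAt ℂ Ψ (b z, q) := fun q =>
    (T.hΨ (b z, q) hbz).differentiableAt (hop.mem_nhds hbz)
  have hΨ0 : Ψ (b z, Φ (0, z)) = (0, z) := by
    have h := T.right (0, z) (by simpa [hz] using hbz)
    simpa [hz] using h
  have hd : fderiv ℂ b z ≠ 0 := by
    intro h0
    have h1 : HasDerivAt (fun t : ℂ => Ψ (t, Φ (0, z))) (fderiv ℂ Ψ (b z, Φ (0, z)) (1, 0)) (b z) := by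
      have h2 : HasDerivAt (fun t : ℂ => (t, Φ (0, z))) ((1 : ℂ), (0 : ℂ × ℂ)) (b z) :=
        (hasDerivAt_id (b z)).prodMk (hasDerivAt_const _ _)
      exact (hΨd _).hasFDerivAt.comp_hasDerivAt (b z) h2
    set v := fderiv ℂ Ψ (b z, Φ (0, z)) (1, 0) with hv
    have h3 : HasDerivAt (fun t : ℂ => (Ψ (t, Φ (0, z))).1) v.1 (b z) := by
      have := (hasFDerivAt_fst (𝕜 := ℂ) (E := ℂ) (F := ℂ × ℂ) (p := Ψ (b z, Φ (0, z)))).comp_hasDerivAt (b z) h1
      exact this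
    have h4 : HasDerivAt (fun t : ℂ => (Ψ (t, Φ (0, z))).2) v.2 (b z) := by
      have := (hasFDerivAt_snd (𝕜 := ℂ) (E := ℂ) (F := ℂ × ℂ) (p := Ψ (b z, Φ (0, z)))).comp_hasDerivAt (b z) h1
      exact this
    have h40 : (Ψ (b z, Φ (0, z))).2 = z := by rw [hΨ0]
    have h5 : HasDerivAt (fun t : ℂ => a (Ψ (t, Φ (0, z))).2) (fderiv ℂ a z v.2) (b z) := by
      have h6 : HasFDerivAt a (fderiv ℂ a z) (Ψ (b z, Φ (0, z))).2 := by
        rw [h40]
        exact (T.ha z).hasFDerivAt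
      exact h6.comp_hasDerivAt (b z) h4
    have h7 : HasDerivAt (fun t : ℂ => b (Ψ (t, Φ (0, z))).2) (fderiv ℂ b z v.2) (b z) := by
      have h6 : HasFDerivAt b (fderiv ℂ b z) (Ψ (b z, Φ (0, z))).2 := by
        rw [h40]
        exact (T.hb z).hasFDerivAt
      exact h6.comp_hasDerivAt (b z) h4
    have h8 := (h5.mul h3).add h7
    have h9 : HasDerivAt (fun t : ℂ => t) (1 : ℂ) (b z) := hasDerivAt_id _
    have h10 : (fun t : ℂ => t) =ᶠ[𝓝 (b z)]
        ((fun t : ℂ => a (Ψ (t, Φ (0, z))).2) * (fun t : ℂ => (Ψ (t, Φ (0, z))).1) +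
          fun t : ℂ => b (Ψ (t, Φ (0, z))).2) := by
      filter_upwards [isOpen_ne.mem_nhds hbz] with t ht
      exact (T.val (t, Φ (0, z)) ht).symm
    have h11 := (h8.congr_of_eventuallyEq h10).unique h9
    rw [h0, hΨ0] at h11
    simp [hz] at h11
  refine ⟨hd, ?_⟩
  intro hcon
  have h0 : ∀ᶠ z' in 𝓝 z, b z' = b z → a z' = 0 := by
    filter_upwards [hcon] with z' h1 h2
    by_contra h3
    exact h1 ⟨h2, h3⟩
  obtain ⟨M, hM0, hM⟩ := nz_bound T.ha T.hb z hd h0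
  have hA : ∀ᶠ q in 𝓝 (Φ (0, z)), a (Ψ (b z, q)).2 = 0 := by
    have hc : ContinuousAt (fun q : ℂ × ℂ => Ψ (b z, q)) (Φ (0, z)) := by
      refine ContinuousAt.comp (g := Ψ) (f := fun q : ℂ × ℂ => (b z, q)) (hΨd _).continuousAt ?_
      exact (continuous_const.prodMk continuous_id).continuousAt
    have t1 : Tendsto (fun q : ℂ × ℂ => (Ψ (b z, q)).2) (𝓝 (Φ (0, z))) (𝓝 z) := by
      have := hc.snd.tendsto
      rwa [hΨ0] at this
    have t2 : Tendsto (fun q : ℂ × ℂ => M * ‖(Ψ (b z, q)).1‖) (𝓝 (Φ (0, z))) (𝓝 0) := by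
      have := (hc.fst.norm.tendsto).const_mul M
      rwa [hΨ0, norm_zero, mul_zero] at this
    filter_upwards [t1.eventually hM, t2.eventually (Iio_mem_nhds one_pos)] with q h1 h2
    have h3 := T.val (b z, q) hbz
    have h4 : b (Ψ (b z, q)).2 - b z = -(a (Ψ (b z, q)).2 * (Ψ (b z, q)).1) := by
      linear_combination h3
    rw [h4, norm_neg, norm_mul] at h1
    by_contra h5
    have h6 : 0 < ‖a (Ψ (b z, q)).2‖ := norm_pos_iff.2 h5
    nlinarith
  obtain ⟨z₁, hz₁⟩ := T.hne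
  set r : ℂ × (ℂ × ℂ) := ((b z - b z₁) / a z₁, z₁) with hr
  have hfr : a r.2 * r.1 + b r.2 = b z := by
    rw [hr]
    field_simp
    ring
  have hr1 := T.right r (by rw [hfr]; exact hbz)
  rw [hfr] at hr1
  have hg : Differentiable ℂ fun t : ℂ => a (Ψ (b z, Φ (0, z) + t • (Φ r - Φ (0, z)))).2 := by
    intro t
    have h1 : DifferentiableAt ℂ (fun t : ℂ => (b z, Φ (0, z) + t • (Φ r - Φ (0, z)))) t := by fun_prop
    exact (T.ha _).comp t (((hΨd _).comp t h1).snd)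
  have hg0 : (fun t : ℂ => a (Ψ (b z, Φ (0, z) + t • (Φ r - Φ (0, z)))).2) =ᶠ[𝓝 0] 0 := by
    have h1 : Tendsto (fun t : ℂ => Φ (0, z) + t • (Φ r - Φ (0, z))) (𝓝 0) (𝓝 (Φ (0, z))) := by
      have h2 : Continuous fun t : ℂ => Φ (0, z) + t • (Φ r - Φ (0, z)) := by fun_prop
      have h3 := h2.tendsto 0
      simpa using h3
    exact h1.eventually hA
  have h1 := (hg.differentiableOn.analyticOnNhd isOpen_univ).eqOn_zero_of_preconnected_of_eventuallyEq_zero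
    isPreconnected_univ (mem_univ 0) hg0 (mem_univ 1)
  simp only [one_smul, add_sub_cancel, Pi.zero_apply] at h1
  rw [hr1] at h1
  exact hz₁ h1

end Pool.Agent.Lib.MP_331bf5_ag
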