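import Pool.Agent.Lib.MP_331bf5_ag.D.L1
import Pool.Agent.Lib.MP_331bf5_ag.D.L2
import Pool.Agent.Lib.MP_331bf5_ag.D.Nz
import Pool.Agent.Lib.MP_331bf5_ag.D.Kap

/-!
Sections through points near a given zero of `a`.
-/

set_option autoImplicit false

open Complex Set Filter Topology MeasureTheory Metric

namespace Pool.Agent.Lib.MP_331bf5_ag

/-- PROOF: take `z ∈ N` with `a z = 0`, `b z ≠ 0`; `nz`, `chart` (with `osg` for `ContDiff`), `minord` for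
`α p = a (ψ₀ p)` on `O` = the points of the bidisc with `ψ₀ p ∈ N` and `p.2 ≠ 0`; `hf` there follows from `nz` and the
last clause of `chart`. Put `ψ p = ψ₀ (χ p, p.2)` and apply `kap`. -/
theorem sect {a b : ℂ × ℂ → ℂ} {Φ : ℂ × (ℂ × ℂ) → ℂ × ℂ} {Ψ : ℂ × (ℂ × ℂ) → ℂ × (ℂ × ℂ)} (T : Triv a b Φ Ψ)
    (N : Set (ℂ × ℂ)) (hN : IsOpen N) (hz : ∃ z ∈ N, a z = 0 ∧ b z ≠ 0) :
    ∃ z ∈ N, ∃ κ : ℂ → ℂ × ℂ, a z = 0 ∧ b z ≠ 0 ∧ DifferentiableOn ℂ κ {c | c ≠ 0} ∧ κ (b z) = z ∧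
      ∀ c, c ≠ 0 → a (κ c) = 0 ∧ b (κ c) = c := by
  obtain ⟨z0, hz0N, hz0a, hz0b⟩ := hz
  obtain ⟨hfd, hfreq⟩ := nz T z0 hz0a hz0b
  have hb1 : ContDiff ℂ 1 b := by
    have h := osg isOpen_univ T.hb.differentiableOn 1
    rw [contDiffOn_univ] at h
    exact_mod_cast h
  obtain ⟨ε, ψ₀, hε, hψd, hψ0, hψb, hev⟩ := chart b T.hb hb1 z0 hfd
  have hDo : IsOpen (ball (0 : ℂ) ε ×ˢ ball (b z0) ε) := isOpen_ball.prod isOpen_ball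
  have hO : IsOpen (((ball (0 : ℂ) ε ×ˢ ball (b z0) ε) ∩ ψ₀ ⁻¹' N) ∩ {p : ℂ × ℂ | p.2 ≠ 0}) :=
    (hψd.continuousOn.isOpen_inter_preimage hDo hN).inter
      (isOpen_ne_fun continuous_snd continuous_const)
  have hαd : DifferentiableOn ℂ (fun p => a (ψ₀ p)) (ball (0 : ℂ) ε ×ˢ ball (b z0) ε) :=
    T.ha.comp_differentiableOn hψd
  have hp0 : ((0 : ℂ), b z0) ∈ ball (0 : ℂ) ε ×ˢ ball (b z0) ε :=
    ⟨mem_ball_self hε, mem_ball_self hε⟩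
  have hf : ∃ᶠ s in 𝓝 (0 : ℂ), a (ψ₀ (s, b z0)) ≠ 0 := by
    intro hcon
    have hcon' : ∀ᶠ s in 𝓝 (0 : ℂ), a (ψ₀ (s, b z0)) = 0 := by
      filter_upwards [hcon] with s hs
      exact not_not.1 hs
    have hline : DifferentiableOn ℂ (fun s : ℂ => a (ψ₀ (s, b z0))) (ball 0 ε) := by
      refine hαd.comp (differentiable_id.prodMk (differentiable_const _)).differentiableOn fun s hs => ?_
      exact ⟨hs, mem_ball_self hε⟩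
    have han := hline.analyticOnNhd isOpen_ball
    have heq := han.eqOn_zero_of_preconnected_of_eventuallyEq_zero (convex_ball (0 : ℂ) ε).isPreconnected
      (mem_ball_self hε) hcon'
    obtain ⟨z', ⟨hz1, hz2⟩, p, hp, hpz⟩ := (hfreq.and_eventually hev).exists
    have h2 : p.2 = b z0 := by rw [← hψb p hp, hpz, hz1]
    have h3 := heq hp.1
    apply hz2
    rw [← hpz]
    have h4 : p = (p.1, b z0) := by rw [← h2]
    rw [h4]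
    exact h3
  obtain ⟨c₁, ρ', δ, χ, hρ, hδ, hχd, hχO, hχne, hχ0⟩ := minord (fun p => a (ψ₀ p)) hO
    (hαd.mono fun p hp => hp.1.1) ((0 : ℂ), b z0) ⟨⟨hp0, by rw [mem_preimage, hψ0]; exact hz0N⟩, hz0b⟩
    (by rw [hψ0]; exact hz0a) hf
  have hmem : ((0 : ℂ), c₁) ∈ ball (0 : ℂ) ρ' ×ˢ ball c₁ δ := ⟨mem_ball_self hρ, mem_ball_self hδ⟩
  have hO1 := hχO _ hmem
  have hψ : DifferentiableOn ℂ (fun p : ℂ × ℂ => ψ₀ (χ p, p.2)) (ball 0 ρ' ×ˢ ball c₁ δ) := by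
    refine hψd.comp (hχd.prodMk differentiable_snd.differentiableOn) fun p hp => ?_
    exact (hχO p hp).1.1
  obtain ⟨κ, hκd, hκ, hκ1⟩ := kap T c₁ hO1.2 ρ' δ hρ hδ (fun p : ℂ × ℂ => ψ₀ (χ p, p.2)) hψ
    (fun p hp => hψb _ (hχO p hp).1.1) (fun p hp h => hχne p hp h) hχ0
  have hbz : b (ψ₀ (χ (0, c₁), c₁)) = c₁ := hψb _ hO1.1.1
  refine ⟨ψ₀ (χ (0, c₁), c₁), hO1.1.2, κ, hχ0, ?_, hκd, ?_, hκ⟩
  · rw [hbz]
    exact hO1.2
  · rw [hbz]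
    exact hκ1

end Pool.Agent.Lib.MP_331bf5_ag
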