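import Pool.Agent.Lib.MP_331bf5_ag.Fields

/-!
The common zeros of `a` and `b` are countable.
-/

set_option autoImplicit false

open Complex Set Filter Topology MeasureTheory Metric

namespace Pool.Agent.Lib.MP_331bf5_ag

/-- The points of the part `x = 0` of the cubic. -/
private noncomputable def Y_sig (e : ℂ × ℂ) : Fin 4 → ℂ := ![0, e.1, -e.2 ^ 2, e.2 ^ 3]

private theorem Y_sig_diff : Differentiable ℂ Y_sig := by
  rw [differentiable_pi]
  intro i
  fin_cases i
  · exact differentiable_const 0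
  · exact differentiable_fst
  · show Differentiable ℂ fun e : ℂ × ℂ => -e.2 ^ 2
    fun_prop
  · show Differentiable ℂ fun e : ℂ × ℂ => e.2 ^ 3
    fun_prop

private theorem Y_param (p : Fin 4 → ℂ) (hp : p ∈ RussellCubic) (h0 : p 0 = 0) :
    ∃ s, p = Y_sig (p 1, s) := by
  have h1 : p 0 + (p 0) ^ 2 * p 1 + (p 2) ^ 3 + (p 3) ^ 2 = 0 := hp
  rw [h0] at h1
  have h2 : (p 2) ^ 3 + (p 3) ^ 2 = 0 := by linear_combination h1
  by_cases hz : p 2 = 0
  · have h3 : p 3 = 0 := by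
      rw [hz] at h2
      have h4 : (p 3) ^ 2 = 0 := by linear_combination h2
      exact pow_eq_zero_iff (by norm_num) |>.1 h4
    refine ⟨0, ?_⟩
    funext i
    fin_cases i
    · exact h0
    · rfl
    · show p 2 = -(0 : ℂ) ^ 2
      rw [hz]
      norm_num
    · show p 3 = (0 : ℂ) ^ 3
      rw [h3]
      norm_num
  · refine ⟨-p 3 / p 2, ?_⟩
    funext i
    fin_cases i
    · exact h0
    · rfl
    · show p 2 = -(-p 3 / p 2) ^ 2
      field_simp
      linear_combination h2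
    · show p 3 = (-p 3 / p 2) ^ 3
      field_simp
      linear_combination p 3 * h2

private theorem Y_zeros {g : ℂ → ℂ} (hg : Differentiable ℂ g) {w : ℂ} (hw : g w ≠ 0) :
    {u | g u = 0}.Countable := by
  have h1 : AnalyticOnNhd ℂ g univ := fun u _ => hg.analyticAt u
  rcases h1.eqOn_zero_or_eventually_ne_zero_of_preconnected isPreconnected_univ with h | h
  · exact absurd (h (mem_univ w)) hw
  · have h2 : {u | g u = 0} ∩ univ = {u | g u = 0} := inter_univ _
    rw [← h2]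
    exact (HereditarilyLindelofSpace.isLindelof _).countable_of_isDiscrete
      (isDiscrete_of_codiscreteWithin h)

/-- A nonconstant entire function takes a value in each dense set. -/
private theorem Y_hit {g : ℂ → ℂ} (hg : Differentiable ℂ g) (hc : ∃ u v, g u ≠ g v) {D : Set ℂ}
    (hD : Dense D) : ∃ u, g u ∈ D := by
  have h1 : AnalyticOnNhd ℂ g univ := fun u _ => hg.analyticAt u
  rcases h1.is_constant_or_isOpen isPreconnected_univ with ⟨w, h⟩ | h
  · obtain ⟨u, v, huv⟩ := hc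
    exact absurd ((h u (mem_univ _)).trans (h v (mem_univ _)).symm) huv
  · have h2 := h univ (subset_refl _) isOpen_univ
    obtain ⟨w, hw, hwD⟩ := hD.inter_open_nonempty _ h2 ⟨g 0, 0, mem_univ _, rfl⟩
    obtain ⟨u, -, rfl⟩ := hw
    exact ⟨u, hwD⟩

/-- PROOF: the part `x = 0` of the cubic consists of the points `Σ (y, s) = ![0, y, - s ^ 2, s ^ 3]` (if `z³ + t² = 0` put
`s = - t / z`, or `s = 0` if `z = 0`). The entire function `A (y, s) = a (G (Σ (y, s))).2` is not identically zero: take `z₁`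
with `a z₁ ≠ 0`, `r = (- b z₁ / a z₁, z₁)`; `F r 0 = 0`, so `F r = Σ (y, s)` and `A (y, s) = a z₁`. Let `(y*, s*)` be a point
with `A (y*, s*) ≠ 0`. The sets `{y | A (y, s*) = 0}` and `{s | A (y*, s) = 0}` are countable (zeros of an entire
function of one variable which is not zero; the zero set is closed and discrete), so there are countable dense sets
`R ⊆ {y | A (y, s*) ≠ 0}` and `R' ⊆ {s | A (y*, s) ≠ 0}` of `ℂ` (the complement of a countable set is dense; separable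
subspace). The set `E = {(y, s) | y ∈ R, A (y, s) = 0} ∪ {(y, s) | s ∈ R' ∪ - R', A (y, s) = 0, A (·, s) not
identically zero}` is countable; to avoid signs take `R'` such that also `A (y*, - s) ≠ 0` for `s ∈ R'`.
Let `a z = b z = 0`. Then `F (u, z) 0 = 0` for all `u`. If `u ↦ F (u, z) 1` is not constant, it is an open map
(`AnalyticOnNhd.is_constant_or_isOpen`), so takes a value in `R`: `F (u, z) = Σ e` with `e ∈ E`. If it is
constant, `u ↦ F (u, z) 2` is not constant (if it is constant, so is `(F (u, z) 3) ^ 2`, then `F (u, z) 3`, but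
`u ↦ F (u, z)` is injective), so it takes a value `- s ^ 2` with `s ∈ R'` (its image is open and not empty, and the
`- s ^ 2`, `s ∈ R'`, are dense), `F (u, z) = Σ (y, s')`, `s' = s` or `s' = - s`. In both cases `z = (G (Σ e)).2`
for a point `e` of the countable set `E`. -/
theorem countY (a b : ℂ × ℂ → ℂ) (ha : Differentiable ℂ a) (hb : Differentiable ℂ b)
    (F : ℂ × (ℂ × ℂ) → (Fin 4 → ℂ)) (G : (Fin 4 → ℂ) → ℂ × (ℂ × ℂ)) (hF : Differentiable ℂ F)
    (hG : Differentiable ℂ G) (hX : ∀ r, F r ∈ RussellCubic) (hGF : ∀ r, G (F r) = r)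
    (hFG : ∀ p ∈ RussellCubic, F (G p) = p) (hx : ∀ r, F r 0 = a r.2 * r.1 + b r.2) (hne : ∃ z, a z ≠ 0) :
    {z | a z = 0 ∧ b z = 0}.Countable := by
  obtain ⟨z₁, hz₁⟩ := hne
  obtain ⟨A, hA⟩ : ∃ A : ℂ × ℂ → ℂ, A = fun e => a (G (Y_sig e)).2 := ⟨_, rfl⟩
  have hAd : Differentiable ℂ A := by
    rw [hA]
    exact ha.comp (differentiable_snd.comp (hG.comp Y_sig_diff))
  obtain ⟨e₁, he₁⟩ : ∃ e, A e ≠ 0 := by
    have h0 : F (-(b z₁) / a z₁, z₁) 0 = 0 := by
      rw [hx]
      show a z₁ * (-(b z₁) / a z₁) + b z₁ = 0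
      field_simp
      ring
    obtain ⟨s, hs⟩ := Y_param _ (hX _) h0
    refine ⟨(F (-(b z₁) / a z₁, z₁) 1, s), ?_⟩
    rw [hA]
    show a (G (Y_sig (F (-(b z₁) / a z₁, z₁) 1, s))).2 ≠ 0
    rw [← hs, hGF]
    exact hz₁
  have hA1 : ∀ y : ℂ, Differentiable ℂ fun s : ℂ => A (y, s) := fun y =>
    hAd.comp (by fun_prop : Differentiable ℂ fun s : ℂ => (y, s))
  have hA2 : ∀ s : ℂ, Differentiable ℂ fun y : ℂ => A (y, s) := fun s =>
    hAd.comp (by fun_prop : Differentiable ℂ fun y : ℂ => (y, s))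
  have hA3 : Differentiable ℂ fun s : ℂ => A (e₁.1, -s) :=
    hAd.comp (by fun_prop : Differentiable ℂ fun s : ℂ => (e₁.1, -s))
  have hN1 : {y : ℂ | A (y, e₁.2) = 0}.Countable := Y_zeros (hA2 e₁.2) (w := e₁.1) he₁
  have hN2 : {s : ℂ | A (e₁.1, s) = 0}.Countable := Y_zeros (hA1 e₁.1) (w := e₁.2) he₁
  have hN3 : {s : ℂ | A (e₁.1, -s) = 0}.Countable := Y_zeros hA3 (w := -e₁.2) (by
    show A (e₁.1, - -e₁.2) ≠ 0
    rw [neg_neg]
    exact he₁)
  obtain ⟨R, hR1, hR2, hR3⟩ := (hN1.dense_compl ℂ).exists_countable_dense_subset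
  obtain ⟨S, hS1, hS2, hS3⟩ := ((hN2.union hN3).dense_compl ℂ).exists_countable_dense_subset
  have hS4 : Dense ((fun s : ℂ => -s ^ 2) '' S) := by
    have h1 : Function.Surjective fun s : ℂ => -s ^ 2 := by
      intro w
      obtain ⟨s, hs⟩ := IsAlgClosed.exists_pow_nat_eq (-w) (n := 2) (by norm_num)
      exact ⟨s, by show -s ^ 2 = w; rw [hs, neg_neg]⟩
    exact h1.denseRange.dense_image (by fun_prop) hS3
  have hE1 : (⋃ y ∈ R, (fun s : ℂ => (y, s)) '' {s | A (y, s) = 0}).Countable :=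
    hR2.biUnion fun y hy => (Y_zeros (hA1 y) (w := e₁.2) (hR1 hy)).image _
  have hE2 : (⋃ s ∈ S, (fun y : ℂ => (y, s)) '' {y | A (y, s) = 0}).Countable :=
    hS2.biUnion fun s hs => (Y_zeros (hA2 s) (w := e₁.1) fun h => hS1 hs (Or.inl h)).image _
  have hE3 : (⋃ s ∈ S, (fun y : ℂ => (y, -s)) '' {y | A (y, -s) = 0}).Countable :=
    hS2.biUnion fun s hs => (Y_zeros (hA2 (-s)) (w := e₁.1) fun h => hS1 hs (Or.inr h)).image _
  refine (((hE1.union hE2).union hE3).image fun e => (G (Y_sig e)).2).mono ?_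
  rintro z ⟨haz, hbz⟩
  have h0 : ∀ u, F (u, z) 0 = 0 := by
    intro u
    rw [hx]
    show a z * u + b z = 0
    rw [haz, hbz]
    ring
  have hFi : ∀ i, Differentiable ℂ fun u : ℂ => F (u, z) i := fun i =>
    (differentiable_pi.1 (hF.comp (by fun_prop : Differentiable ℂ fun u : ℂ => (u, z)))) i
  have hpt : ∀ u s, F (u, z) = Y_sig (F (u, z) 1, s) →
      A (F (u, z) 1, s) = 0 ∧ (G (Y_sig (F (u, z) 1, s))).2 = z := by
    intro u s hs
    have h1 : (G (Y_sig (F (u, z) 1, s))).2 = z := by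
      rw [← hs, hGF]
    refine ⟨?_, h1⟩
    rw [hA]
    show a (G (Y_sig (F (u, z) 1, s))).2 = 0
    rw [h1, haz]
  by_cases hc : ∃ u v, F (u, z) 1 ≠ F (v, z) 1
  · obtain ⟨u, hu⟩ := Y_hit (hFi 1) hc hR3
    obtain ⟨s, hs⟩ := Y_param _ (hX (u, z)) (h0 u)
    obtain ⟨h1, h2⟩ := hpt u s hs
    refine ⟨(F (u, z) 1, s), Or.inl (Or.inl ?_), h2⟩
    exact mem_biUnion hu ⟨s, h1, rfl⟩
  · push Not at hc
    by_cases hc2 : ∃ u v, F (u, z) 2 ≠ F (v, z) 2
    · obtain ⟨u, s, hsS, hs⟩ := Y_hit (hFi 2) hc2 hS4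
      obtain ⟨s', hs'⟩ := Y_param _ (hX (u, z)) (h0 u)
      obtain ⟨h1, h2⟩ := hpt u s' hs'
      have h3 : F (u, z) 2 = -s' ^ 2 := congrFun hs' 2
      have h4 : s' ^ 2 = s ^ 2 := by
        have h5 : -s ^ 2 = F (u, z) 2 := hs
        linear_combination h3 + h5
      rcases sq_eq_sq_iff_eq_or_eq_neg.1 h4 with h5 | h5
      · rw [h5] at h1 h2
        refine ⟨(F (u, z) 1, s), Or.inl (Or.inr ?_), h2⟩
        exact mem_biUnion hsS ⟨F (u, z) 1, h1, rfl⟩
      · rw [h5] at h1 h2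
        refine ⟨(F (u, z) 1, -s), Or.inr ?_, h2⟩
        exact mem_biUnion hsS ⟨F (u, z) 1, h1, rfl⟩
    · push Not at hc2
      exfalso
      have hrel : ∀ u, (F (u, z) 3) ^ 2 = -(F (0, z) 2) ^ 3 := by
        intro u
        have h1 : F (u, z) 0 + (F (u, z) 0) ^ 2 * F (u, z) 1 + (F (u, z) 2) ^ 3 + (F (u, z) 3) ^ 2 = 0 :=
          hX (u, z)
        rw [h0 u, hc2 u 0] at h1
        linear_combination h1
      have hc3 : ∀ u v, F (u, z) 3 = F (v, z) 3 := by
        by_contra hcon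
        push Not at hcon
        obtain ⟨w, hw⟩ := IsAlgClosed.exists_pow_nat_eq (-(F (0, z) 2) ^ 3 + 1) (n := 2) (by norm_num)
        have hcd : {w : ℂ | w ^ 2 - -(F (0, z) 2) ^ 3 = 0}.Countable :=
          Y_zeros (by fun_prop) (w := w) (by rw [hw]; ring_nf; norm_num)
        obtain ⟨u, hu⟩ := Y_hit (hFi 3) hcon (hcd.dense_compl ℂ)
        apply hu
        show (F (u, z) 3) ^ 2 - -(F (0, z) 2) ^ 3 = 0
        rw [hrel u, sub_self]
      have h1 : F (0, z) = F (1, z) := by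
        funext i
        fin_cases i
        · exact (h0 0).trans (h0 1).symm
        · exact hc 0 1
        · exact hc2 0 1
        · exact hc3 0 1
      have h2 := hGF (0, z)
      rw [h1, hGF] at h2
      exact one_ne_zero (congrArg Prod.fst h2)

end Pool.Agent.Lib.MP_331bf5_ag
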