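import Pool.Agent.Lib.MP_331bf5_ag.Final
import Pool.Agent.Lib.MP_331bf5_ag.D.Ls
import Pool.Agent.Lib.MP_331bf5_ag.D.En
import Pool.Agent.Lib.MP_331bf5_ag.D.Y

/-!
# There is no biholomorphism for which `x` is of degree at most one in one of the coordinates
-/

set_option autoImplicit false

open Complex Set Filter Topology MeasureTheory Metric

namespace Pool.Agent.Lib.MP_331bf5_ag

/-- The case `a ≠ 0`. -/
theorem affine_ne (a b : ℂ × ℂ → ℂ) (ha : Differentiable ℂ a) (hb : Differentiable ℂ b)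
    (F : ℂ × (ℂ × ℂ) → (Fin 4 → ℂ)) (G : (Fin 4 → ℂ) → ℂ × (ℂ × ℂ)) (hF : Differentiable ℂ F)
    (hG : Differentiable ℂ G) (hX : ∀ r, F r ∈ RussellCubic) (hGF : ∀ r, G (F r) = r)
    (hFG : ∀ p ∈ RussellCubic, F (G p) = p) (hx : ∀ r, F r 0 = a r.2 * r.1 + b r.2) (hne : ∃ z, a z ≠ 0) : False := by
  have T : Triv a b (fun r => (F r 2, F r 3)) (fun p => G (ch p.1 p.2)) := by
    refine ⟨ha, hb, ?_, ?_, ?_, ?_, ?_, hne⟩
    · exact (differentiable_pi.1 hF 2).prodMk (differentiable_pi.1 hF 3)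
    · intro p hp
      obtain ⟨L, hL, -⟩ := ch_deriv p.1 hp p.2
      exact (((hG _).hasFDerivAt.comp (p.1, p.2) hL).differentiableAt).differentiableWithinAt
    · intro p hp
      have h1 := hx (G (ch p.1 p.2))
      rw [hFG _ (ch_mem p.1 hp p.2)] at h1
      exact h1.symm
    · intro p hp
      show (F (G (ch p.1 p.2)) 2, F (G (ch p.1 p.2)) 3) = p.2
      rw [hFG _ (ch_mem p.1 hp p.2)]
      rfl
    · intro r hr
      show G (ch (a r.2 * r.1 + b r.2) (F r 2, F r 3)) = r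
      rw [← hx] at hr ⊢
      rw [ch_eq _ (hX r) hr, hGF]
  have hp : (![0, 0, 0, 0] : Fin 4 → ℂ) ∈ RussellCubic := by
    show (0 : ℂ) + 0 ^ 2 * 0 + 0 ^ 3 + 0 ^ 2 = 0
    ring
  obtain ⟨r, hr⟩ : ∃ r, r = G ![0, 0, 0, 0] := ⟨_, rfl⟩
  have hFr : F r = ![0, 0, 0, 0] := by
    rw [hr]
    exact hFG _ hp
  have e5 : ∀ i, F r i = 0 := by
    intro i
    rw [hFr]
    fin_cases i <;> rfl
  have hFi : ∀ i, HasFDerivAt (fun r => F r i) ((ContinuousLinearMap.proj i).comp (fderiv ℂ F r)) r := fun i =>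
    hasFDerivAt_pi'.1 (hF r).hasFDerivAt i
  have ht : ∀ e : ℂ × (ℂ × ℂ), fderiv ℂ F r e 0 = 0 := by
    intro e
    have e1 := ((((hFi 0).add (((hFi 0).pow 2).mul (hFi 1))).add ((hFi 2).pow 3)).add ((hFi 3).pow 2))
    have e2 : HasFDerivAt (fun _ : ℂ × (ℂ × ℂ) => (0 : ℂ)) (0 : (ℂ × (ℂ × ℂ)) →L[ℂ] ℂ) r := hasFDerivAt_const 0 r
    have e3 := e2.congr_of_eventuallyEq (f₁ := fun r => F r 0 + (F r 0) ^ 2 * F r 1 + (F r 2) ^ 3 + (F r 3) ^ 2)
      (Eventually.of_forall fun r => hX r)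
    have e4 := congrArg (fun M : (ℂ × (ℂ × ℂ)) →L[ℂ] ℂ => M e) (e1.unique e3)
    simp [e5] at e4
    exact e4
  have hd : ∀ e : ℂ × (ℂ × ℂ), a r.2 * e.1 + r.1 * fderiv ℂ a r.2 e.2 + fderiv ℂ b r.2 e.2 = 0 := by
    intro e
    have e1 : HasFDerivAt (fun r : ℂ × (ℂ × ℂ) => a r.2)
        ((fderiv ℂ a r.2).comp (ContinuousLinearMap.snd ℂ ℂ (ℂ × ℂ))) r :=
      (ha r.2).hasFDerivAt.comp r (ContinuousLinearMap.snd ℂ ℂ (ℂ × ℂ)).hasFDerivAt
    have e2 : HasFDerivAt (fun r : ℂ × (ℂ × ℂ) => b r.2)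
        ((fderiv ℂ b r.2).comp (ContinuousLinearMap.snd ℂ ℂ (ℂ × ℂ))) r :=
      (hb r.2).hasFDerivAt.comp r (ContinuousLinearMap.snd ℂ ℂ (ℂ × ℂ)).hasFDerivAt
    have e3 := (e1.mul (ContinuousLinearMap.fst ℂ ℂ (ℂ × ℂ)).hasFDerivAt).add e2
    have e4 : HasFDerivAt (fun r : ℂ × (ℂ × ℂ) => F r 0) _ r :=
      e3.congr_of_eventuallyEq (Eventually.of_forall fun r => hx r)
    have e6 := congrArg (fun M : (ℂ × (ℂ × ℂ)) →L[ℂ] ℂ => M e) (e4.unique (hFi 0))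
    have e7 : ((ContinuousLinearMap.proj 0 : (Fin 4 → ℂ) →L[ℂ] ℂ).comp (fderiv ℂ F r)) e = 0 := ht e
    rw [e7] at e6
    simp at e6
    linear_combination e6
  have h1 : a r.2 = 0 := by
    have h2 := hd (1, 0)
    simp at h2
    exact h2
  have h2 : b r.2 = 0 := by
    have h3 := hx r
    rw [e5, h1] at h3
    linear_combination -h3
  have h3 : r.1 • fderiv ℂ a r.2 + fderiv ℂ b r.2 = 0 := by
    refine ContinuousLinearMap.ext fun e => ?_
    have h4 := hd (0, e)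
    simp only [mul_zero, zero_add] at h4
    exact h4
  have hC : ∀ f : ℂ × ℂ → ℂ, Differentiable ℂ f → ContDiff ℂ 1 f := by
    intro f hf
    have h := osg isOpen_univ hf.differentiableOn 1
    rw [contDiffOn_univ] at h
    exact_mod_cast h
  exact endg a b (hC a ha) (hC b hb) r.2 r.1 h1 h2 h3 (countY a b ha hb F G hF hG hX hGF hFG hx hne)
    fun N hN hz => sect T N hN hz

/-- There is no biholomorphism with `C³` for which `x` is of degree at most one in one of the coordinates. -/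
theorem affine (F : (Fin 3 → ℂ) → (Fin 4 → ℂ)) (G : (Fin 4 → ℂ) → (Fin 3 → ℂ)) (hF : Differentiable ℂ F)
    (hG : Differentiable ℂ G) (hFX : ∀ u, F u ∈ RussellCubic) (hGF : ∀ u, G (F u) = u) (hFG : ∀ p ∈ RussellCubic, F (G p) = p)
    (a b : ℂ → ℂ → ℂ) (hx : ∀ u, F u 0 = a (u 1) (u 2) * u 0 + b (u 1) (u 2)) : False := by
  have hJ : Differentiable ℂ (fun r : ℂ × (ℂ × ℂ) => (![r.1, r.2.1, r.2.2] : Fin 3 → ℂ)) := by
    rw [differentiable_pi]
    intro i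
    fin_cases i
    · exact differentiable_fst
    · show Differentiable ℂ fun r : ℂ × (ℂ × ℂ) => r.2.1
      fun_prop
    · show Differentiable ℂ fun r : ℂ × (ℂ × ℂ) => r.2.2
      fun_prop
  have hFJ : Differentiable ℂ (fun r : ℂ × (ℂ × ℂ) => F ![r.1, r.2.1, r.2.2]) := hF.comp hJ
  have hbd : Differentiable ℂ (fun z : ℂ × ℂ => b z.1 z.2) := by
    have h1 : (fun z : ℂ × ℂ => b z.1 z.2) = fun z : ℂ × ℂ => F ![0, z.1, z.2] 0 := by
      funext z
      rw [hx]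
      show b z.1 z.2 = a z.1 z.2 * 0 + b z.1 z.2
      ring
    rw [h1]
    exact (differentiable_pi.1 hFJ 0).comp (by fun_prop : Differentiable ℂ fun z : ℂ × ℂ => ((0 : ℂ), z))
  have had : Differentiable ℂ (fun z : ℂ × ℂ => a z.1 z.2) := by
    have h1 : (fun z : ℂ × ℂ => a z.1 z.2) = fun z : ℂ × ℂ => F ![1, z.1, z.2] 0 - b z.1 z.2 := by
      funext z
      rw [hx]
      show a z.1 z.2 = a z.1 z.2 * 1 + b z.1 z.2 - b z.1 z.2
      ring
    rw [h1]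
    exact ((differentiable_pi.1 hFJ 0).comp (by fun_prop : Differentiable ℂ fun z : ℂ × ℂ => ((1 : ℂ), z))).sub hbd
  by_cases hne : ∃ z : ℂ × ℂ, a z.1 z.2 ≠ 0
  · refine affine_ne (fun z => a z.1 z.2) (fun z => b z.1 z.2) had hbd (fun r => F ![r.1, r.2.1, r.2.2])
      (fun p => (G p 0, (G p 1, G p 2))) hFJ ?_ (fun r => hFX _) ?_ ?_ (fun r => hx _) hne
    · exact (differentiable_pi.1 hG 0).prodMk ((differentiable_pi.1 hG 1).prodMk (differentiable_pi.1 hG 2))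
    · intro r
      show (G (F ![r.1, r.2.1, r.2.2]) 0, (G (F ![r.1, r.2.1, r.2.2]) 1, G (F ![r.1, r.2.1, r.2.2]) 2)) = r
      rw [hGF]
      rfl
    · intro p hp
      show F ![G p 0, G p 1, G p 2] = p
      have h1 : (![G p 0, G p 1, G p 2] : Fin 3 → ℂ) = G p := by
        funext i
        fin_cases i <;> rfl
      rw [h1]
      exact hFG p hp
  · push Not at hne
    refine no_biholo F G hF hG hFX hGF hFG fun u u' h1 h2 => ?_
    rw [hx, hx, h1, h2, hne (u' 1, u' 2), zero_mul, zero_mul]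

end Pool.Agent.Lib.MP_331bf5_ag
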