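import Pool.Agent.Lib.MP_c0402d_ag.TE2

/-!
Holomorphic functions of several variables are smooth.
-/

set_option autoImplicit false

open Complex Set Filter Topology MeasureTheory Metric

namespace Pool.Agent.Lib.MP_331bf5_ag

/-- PROOF: for `E = Fin m → ℂ` this is `Pool.Agent.Arith.te2_contDiff`. In general take a linear isomorphism
`ContinuousLinearEquiv.ofFinrankEq` of `E` with `Fin m → ℂ`, `m = finrank`, and compose
(`ContinuousLinearEquiv.contDiffOn_comp_iff` or `ContDiffOn.comp`). -/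
theorem osg {E : Type*} [NormedAddCommGroup E] [NormedSpace ℂ E] [FiniteDimensional ℂ E] {U : Set E} (hU : IsOpen U)
    {f : E → ℂ} (hf : DifferentiableOn ℂ f U) (n : ℕ) : ContDiffOn ℂ n f U := by
  obtain ⟨m, hm⟩ : ∃ m, m = Module.finrank ℂ E := ⟨_, rfl⟩
  have hfr : Module.finrank ℂ (Fin m → ℂ) = Module.finrank ℂ E := by
    rw [Module.finrank_fin_fun, hm]
  let e : (Fin m → ℂ) ≃L[ℂ] E := ContinuousLinearEquiv.ofFinrankEq hfr
  have h1 : DifferentiableOn ℂ (f ∘ e) (e ⁻¹' U) :=
    hf.comp e.differentiable.differentiableOn fun x hx => hx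
  have h2 : ContDiffOn ℂ n (f ∘ e) (e ⁻¹' U) :=
    Pool.Agent.Arith.te2_contDiff (hU.preimage e.continuous) n h1
  exact (e.contDiffOn_comp_iff).1 h2

end Pool.Agent.Lib.MP_331bf5_ag
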