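import Pool.Agent.Lib.MP_331bf5_ag.D.P1

/-!
Integrals which depend on a parameter.
-/

set_option autoImplicit false

open Complex Set Filter Topology MeasureTheory Metric

namespace Pool.Agent.Lib.MP_331bf5_ag

/-- PROOF: `intervalIntegral.hasFDerivAt_integral_of_dominated_of_fderiv_le` on a small closed ball `K` around `p`:
by compactness (`generalized_tube_lemma`) `K ×ˢ γ '' uIcc a b ⊆ O` for a small ball; `fderiv ℂ Θ` is continuous on `O`
by `osg` with `n = 1` (`ContDiffOn.continuousOn_fderiv_of_isOpen`), so bounded on the compact set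
`K ×ˢ γ '' uIcc a b`; `w` is bounded on `uIcc a b`. The derivative of `p ↦ Θ (p, s)` is
`(fderiv ℂ Θ (p, s)).comp (inl ℂ E ℂ)` (`hasFDerivAt_prodMk_left`). -/
theorem par {E : Type*} [NormedAddCommGroup E] [NormedSpace ℂ E] [FiniteDimensional ℂ E] (Θ : E × ℂ → ℂ)
    {O : Set (E × ℂ)} (hO : IsOpen O) (hΘ : DifferentiableOn ℂ Θ O) {γ w : ℝ → ℂ} (hγ : Continuous γ)
    (hw : Continuous w) (a b : ℝ) (p : E) (hp : ∀ θ ∈ uIcc a b, (p, γ θ) ∈ O) :
    HasFDerivAt (fun p => ∫ θ in a..b, w θ * Θ (p, γ θ))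
      (∫ θ in a..b, w θ • (fderiv ℂ Θ (p, γ θ)).comp (ContinuousLinearMap.inl ℂ E ℂ)) p := by
  have hK : IsCompact (γ '' uIcc a b) := isCompact_uIcc.image hγ
  obtain ⟨u, v, hu, hv, hsu, htv, huv⟩ := generalized_tube_lemma (isCompact_singleton (x := p)) hK hO (by
    rintro ⟨x, y⟩ ⟨hx, θ, hθ, hy⟩
    have hx' : x = p := hx
    have hy' : γ θ = y := hy
    rw [hx', ← hy']
    exact hp θ hθ)
  have hpu : p ∈ u := hsu rfl
  have : ProperSpace E := FiniteDimensional.proper ℂ E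
  obtain ⟨r, hr, hru⟩ := Metric.nhds_basis_closedBall.mem_iff.1 (hu.mem_nhds hpu)
  have hsubO : ∀ x ∈ closedBall p r, ∀ θ ∈ uIcc a b, (x, γ θ) ∈ O :=
    fun x hx θ hθ => huv ⟨hru hx, htv ⟨θ, hθ, rfl⟩⟩
  have hd : ContinuousOn (fderiv ℂ Θ) O := (osg hO hΘ 1).continuousOn_fderiv_of_isOpen hO (by norm_num)
  have hcomp : IsCompact (closedBall p r ×ˢ (γ '' uIcc a b)) := (isCompact_closedBall p r).prod hK
  have hsub : closedBall p r ×ˢ (γ '' uIcc a b) ⊆ O := by
    rintro ⟨x, y⟩ ⟨hx, θ, hθ, hy⟩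
    have hy' : γ θ = y := hy
    rw [← hy']
    exact hsubO x hx θ hθ
  obtain ⟨M, hM⟩ := hcomp.exists_bound_of_continuousOn (hd.mono hsub)
  obtain ⟨W, hW⟩ := (isCompact_uIcc (a := a) (b := b)).exists_bound_of_continuousOn hw.continuousOn
  -- continuity along the path
  have hpath : ∀ x ∈ closedBall p r, ContinuousOn (fun θ => (x, γ θ)) (uIcc a b) := fun x _ =>
    (continuous_const.prodMk hγ).continuousOn
  have hmaps : ∀ x ∈ closedBall p r, MapsTo (fun θ => (x, γ θ)) (uIcc a b) O := fun x hx θ hθ => hsubO x hx θ hθ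
  have hc1 : ∀ x ∈ closedBall p r, ContinuousOn (fun θ => w θ * Θ (x, γ θ)) (uIcc a b) := fun x hx =>
    hw.continuousOn.mul (hΘ.continuousOn.comp (hpath x hx) (hmaps x hx))
  have hpb : p ∈ closedBall p r := mem_closedBall_self hr.le
  have hc2 : ContinuousOn (fun θ => w θ • (fderiv ℂ Θ (p, γ θ)).comp (ContinuousLinearMap.inl ℂ E ℂ))
      (uIcc a b) :=
    hw.continuousOn.smul ((hd.comp (hpath p hpb) (hmaps p hpb)).clm_comp continuousOn_const)
  refine intervalIntegral.hasFDerivAt_integral_of_dominated_of_fderiv_le (𝕜 := ℂ) (s := closedBall p r)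
    (F := fun p θ => w θ * Θ (p, γ θ))
    (F' := fun p θ => w θ • (fderiv ℂ Θ (p, γ θ)).comp (ContinuousLinearMap.inl ℂ E ℂ))
    (bound := fun _ => W * (M * ‖ContinuousLinearMap.inl ℂ E ℂ‖)) (closedBall_mem_nhds p hr) ?_ ?_ ?_ ?_ ?_ ?_
  · filter_upwards [closedBall_mem_nhds p hr] with x hx
    exact ((hc1 x hx).mono uIoc_subset_uIcc).aestronglyMeasurable measurableSet_uIoc
  · exact (hc1 p hpb).intervalIntegrable
  · exact (hc2.mono uIoc_subset_uIcc).aestronglyMeasurable measurableSet_uIoc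
  · refine Eventually.of_forall fun θ hθ x hx => ?_
    have hθ' := uIoc_subset_uIcc hθ
    rw [norm_smul]
    have h1 := hW θ hθ'
    have h2 : ‖fderiv ℂ Θ (x, γ θ)‖ ≤ M := hM (x, γ θ) ⟨hx, θ, hθ', rfl⟩
    have h3 := ContinuousLinearMap.opNorm_comp_le (fderiv ℂ Θ (x, γ θ)) (ContinuousLinearMap.inl ℂ E ℂ)
    exact mul_le_mul h1 (h3.trans (mul_le_mul_of_nonneg_right h2 (norm_nonneg _))) (norm_nonneg _)
      ((norm_nonneg _).trans h1)
  · exact intervalIntegrable_const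
  · refine Eventually.of_forall fun θ hθ x hx => ?_
    have hθ' := uIoc_subset_uIcc hθ
    have hdx : HasFDerivAt Θ (fderiv ℂ Θ (x, γ θ)) (x, γ θ) :=
      ((hΘ _ (hsubO x hx θ hθ')).differentiableAt (hO.mem_nhds (hsubO x hx θ hθ'))).hasFDerivAt
    have h4 : HasFDerivAt (fun y : E => (y, γ θ)) (ContinuousLinearMap.inl ℂ E ℂ) x := hasFDerivAt_prodMk_left x (γ θ)
    exact (hdx.comp x h4).const_mul (w θ)

end Pool.Agent.Lib.MP_331bf5_ag
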