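import Mathlib

/-!
The argument principle for a function with at most one zero in the disc.
-/

set_option autoImplicit false

open Complex Set Filter Topology MeasureTheory Metric

namespace Pool.Agent.Lib.MP_331bf5_ag

/-- PROOF: `α` is analytic at `0` and not zero near `0`, so `α s = s ^ m * g s` near `0` with `g` analytic, `g 0 ≠ 0`
(`AnalyticAt.exists_eventuallyEq_pow_smul_nonzero_iff`), `m = 0` iff `α 0 ≠ 0`. Put `h s = s * deriv α s / α s` for
`s ≠ 0` and `h 0 = m`. Near `0`: `h s = m + s * deriv g s / g s`, so `h` is continuous on `closedBall 0 ρ`, and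
differentiable at every point `s ≠ 0` of the ball. `K s * (deriv α s / α s) = (s - 0)⁻¹ • (K s * h s)` on the circle;
`Complex.circleIntegral_sub_inv_smul_of_differentiable_on_off_countable` (countable set `{0}`). -/
theorem res (ρ ρ' : ℝ) (h0 : 0 < ρ) (h1 : ρ < ρ') (α : ℂ → ℂ) (hα : DifferentiableOn ℂ α (ball 0 ρ'))
    (hne : ∀ s ∈ ball (0 : ℂ) ρ', s ≠ 0 → α s ≠ 0) :
    ∃ m : ℕ, (m = 0 ↔ α 0 ≠ 0) ∧ ∀ K : ℂ → ℂ, DifferentiableOn ℂ K (ball 0 ρ') →
      (∮ s in C(0, ρ), K s * (deriv α s / α s)) = 2 * Real.pi * I * m * K 0 := by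
  have hρ' : 0 < ρ' := h0.trans h1
  have h0m : (0 : ℂ) ∈ ball (0 : ℂ) ρ' := mem_ball_self hρ'
  have hopen : IsOpen (ball (0 : ℂ) ρ') := isOpen_ball
  have hbn : ball (0 : ℂ) ρ' ∈ 𝓝 (0 : ℂ) := hopen.mem_nhds h0m
  have han : AnalyticAt ℂ α 0 := hα.analyticAt hbn
  have hnz : ¬∀ᶠ z in 𝓝 (0 : ℂ), α z = 0 := by
    intro h
    have h2 : ∀ᶠ z in 𝓝[≠] (0 : ℂ), α z = 0 ∧ z ∈ ball (0 : ℂ) ρ' ∧ z ≠ 0 := by
      filter_upwards [nhdsWithin_le_nhds h, nhdsWithin_le_nhds hbn, self_mem_nhdsWithin] with z h3 h4 h5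
      exact ⟨h3, h4, h5⟩
    obtain ⟨z, h3, h4, h5⟩ := h2.exists
    exact hne z h4 h5 h3
  obtain ⟨m, g, hg, hg0, hge⟩ := han.exists_eventuallyEq_pow_smul_nonzero_iff.2 hnz
  have hα0 : α 0 = 0 ^ m * g 0 := by
    have h2 := hge.self_of_nhds
    rw [sub_zero, smul_eq_mul] at h2
    exact h2
  refine ⟨m, ?_, fun K hK => ?_⟩
  · constructor
    · intro hm
      rw [hα0, hm, pow_zero, one_mul]
      exact hg0
    · intro hne0
      by_contra hm
      rw [hα0, zero_pow hm, zero_mul] at hne0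
      exact hne0 rfl
  -- the quotient
  obtain ⟨G, hG⟩ : ∃ G : ℂ → ℂ, G = fun s => if s = 0 then g 0 else α s / s ^ m := ⟨_, rfl⟩
  have hGn : ∀ s, s ≠ 0 → G s = α s / s ^ m := by
    intro s hs
    rw [hG]
    exact if_neg hs
  have hG0 : G 0 = g 0 := by
    rw [hG]
    exact if_pos rfl
  have hGne : ∀ s ∈ ball (0 : ℂ) ρ', G s ≠ 0 := by
    intro s hs
    by_cases h2 : s = 0
    · rw [h2, hG0]
      exact hg0
    · rw [hGn s h2]
      exact div_ne_zero (hne s hs h2) (pow_ne_zero _ h2)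
  have hGd : DifferentiableOn ℂ G (ball 0 ρ') := by
    intro s hs
    refine DifferentiableAt.differentiableWithinAt ?_
    by_cases h2 : s = 0
    · rw [h2]
      have h3 : G =ᶠ[𝓝 0] g := by
        filter_upwards [hge] with z hz
        by_cases h4 : z = 0
        · rw [h4, hG0]
        · rw [hGn z h4, hz, sub_zero, smul_eq_mul, mul_div_cancel_left₀ _ (pow_ne_zero _ h4)]
      exact hg.differentiableAt.congr_of_eventuallyEq h3
    · have h3 : G =ᶠ[𝓝 s] fun z => α z / z ^ m := by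
        filter_upwards [isOpen_ne.mem_nhds h2] with z hz
        exact hGn z hz
      refine DifferentiableAt.congr_of_eventuallyEq ?_ h3
      exact (hα.differentiableAt (hopen.mem_nhds hs)).div (differentiableAt_id.pow m) (pow_ne_zero _ h2)
  have hGdd : DifferentiableOn ℂ (deriv G) (ball 0 ρ') := hGd.deriv hopen
  have hF : DifferentiableOn ℂ (fun s => K s * (m + s * (deriv G s / G s))) (ball 0 ρ') :=
    hK.mul ((differentiableOn_const _).add (differentiableOn_id.mul (hGdd.div hGd hGne)))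
  have hsub : closedBall (0 : ℂ) ρ ⊆ ball 0 ρ' := closedBall_subset_ball h1
  have hint := (hF.mono hsub).circleIntegral_sub_inv_smul (mem_ball_self h0)
  have hcongr : (∮ s in C(0, ρ), K s * (deriv α s / α s)) =
      ∮ s in C(0, ρ), (s - 0)⁻¹ • (K s * (m + s * (deriv G s / G s))) := by
    refine circleIntegral.integral_congr h0.le fun s hs => ?_
    have hsb : s ∈ ball (0 : ℂ) ρ' := hsub (sphere_subset_closedBall hs)
    have hs0 : s ≠ 0 := by
      intro h2
      rw [h2, mem_sphere, dist_self] at hs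
      exact h0.ne hs
    have hGs := hGne s hsb
    have he : α =ᶠ[𝓝 s] fun z => z ^ m * G z := by
      filter_upwards [isOpen_ne.mem_nhds hs0] with z hz
      rw [hGn z hz, mul_div_cancel₀ _ (pow_ne_zero _ hz)]
    have hd : HasDerivAt (fun z => z ^ m * G z) (m * s ^ (m - 1) * G s + s ^ m * deriv G s) s :=
      (hasDerivAt_pow m s).mul (hGd.differentiableAt (hopen.mem_nhds hsb)).hasDerivAt
    have hd2 : deriv α s = m * s ^ (m - 1) * G s + s ^ m * deriv G s := by
      rw [he.deriv_eq]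
      exact hd.deriv
    have hv : α s = s ^ m * G s := he.self_of_nhds
    show K s * (deriv α s / α s) = (s - 0)⁻¹ • (K s * (m + s * (deriv G s / G s)))
    rw [hd2, hv, sub_zero, smul_eq_mul]
    rcases Nat.eq_zero_or_pos m with hm | hm
    · rw [hm]
      field_simp
      simp only [Nat.cast_zero, zero_mul, zero_add]
      ring
    · obtain ⟨k, rfl⟩ := Nat.exists_eq_add_of_lt hm
      rw [zero_add, Nat.add_sub_cancel, pow_succ]
      field_simp
  rw [hcongr, hint, smul_eq_mul, zero_mul, add_zero]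
  ring

end Pool.Agent.Lib.MP_331bf5_ag
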