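import Pool.Agent.Lib.MP_331bf5_ag.D.Th
import Pool.Agent.Lib.MP_331bf5_ag.D.B
import Pool.Agent.Lib.MP_331bf5_ag.D.R
import Pool.Agent.Lib.MP_331bf5_ag.D.Cl

/-!
The values of `k` on the zeros of `a` near `ψ (0, c₁)` are the periods of a family of forms which is defined for all
`c ≠ 0`.
-/

set_option autoImplicit false

open Complex Set Filter Topology MeasureTheory Metric

namespace Pool.Agent.Lib.MP_331bf5_ag

/-- The derivative in the first variable. -/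
private theorem per_line {h : ℂ × ℂ → ℂ} {s c : ℂ} (hh : DifferentiableAt ℂ h (s, c)) :
    HasDerivAt (fun s' => h (s', c)) (fderiv ℂ h (s, c) (1, 0)) s := by
  have h1 : HasFDerivAt (fun s' : ℂ => ((s', c) : ℂ × ℂ)) (ContinuousLinearMap.inl ℂ ℂ ℂ) s :=
    hasFDerivAt_prodMk_left s c
  have h2 := (hh.hasFDerivAt.comp s h1).hasDerivAt
  exact h2

/-- The derivative in the second variable. -/
private theorem per_line2 {h : ℂ × ℂ → ℂ} {c s : ℂ} (hh : DifferentiableAt ℂ h (c, s)) :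
    HasDerivAt (fun s' => h (c, s')) (fderiv ℂ h (c, s) (0, 1)) s := by
  have h1 : HasFDerivAt (fun s' : ℂ => ((c, s') : ℂ × ℂ)) (ContinuousLinearMap.inr ℂ ℂ ℂ) s :=
    hasFDerivAt_prodMk_right c s
  have h2 := (hh.hasFDerivAt.comp s h1).hasDerivAt
  exact h2

/-- The derivative applied to a vector is holomorphic. -/
private theorem per_fd {E : Type*} [NormedAddCommGroup E] [NormedSpace ℂ E] [FiniteDimensional ℂ E] {U : Set E}
    (hU : IsOpen U) {f : E → ℂ} (hf : DifferentiableOn ℂ f U) (e : E) : DifferentiableOn ℂ (fun p => fderiv ℂ f p e) U := by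
  have h1 : ContDiffOn ℂ 1 (fderiv ℂ f) U := (osg hU hf 2).fderiv_of_isOpen hU (by norm_num)
  have h2 : DifferentiableOn ℂ (fderiv ℂ f) U := h1.differentiableOn (by norm_num)
  exact h2.clm_apply (differentiableOn_const e)

private theorem per_div {E : Type*} [NormedAddCommGroup E] [NormedSpace ℂ E] {U : Set E} {f g : E → ℂ}
    (hf : DifferentiableOn ℂ f U) (hg : DifferentiableOn ℂ g U) (h0 : ∀ p ∈ U, g p ≠ 0) :
    DifferentiableOn ℂ (fun p => f p / g p) U := by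
  have h1 : DifferentiableOn ℂ (fun p => f p * (g p)⁻¹) U := hf.mul (hg.inv h0)
  refine h1.congr fun p _ => ?_
  exact div_eq_mul_inv _ _

/-- The winding number does not depend on `c`. -/
private theorem per_wind {a : ℂ × ℂ → ℂ} (ha0 : Differentiable ℂ a) (c₁ : ℂ) (ρ' δ : ℝ) (hρ : 0 < ρ') (hδ : 0 < δ)
    (ψ : ℂ × ℂ → ℂ × ℂ) (hψ : DifferentiableOn ℂ ψ (ball 0 ρ' ×ˢ ball c₁ δ))
    (ha : ∀ p ∈ ball 0 ρ' ×ˢ ball c₁ δ, p.1 ≠ 0 → a (ψ p) ≠ 0) (c : ℂ) (hc : c ∈ ball c₁ δ) :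
    (∮ s in C(0, ρ' / 2), deriv (fun s => a (ψ (s, c))) s / a (ψ (s, c))) =
      ∮ s in C(0, ρ' / 2), deriv (fun s => a (ψ (s, c₁))) s / a (ψ (s, c₁)) := by
  have hO : IsOpen {p : ℂ × ℂ | p ∈ ball 0 ρ' ×ˢ ball c₁ δ ∧ p.1 ≠ 0} :=
    (isOpen_ball.prod isOpen_ball).inter (isOpen_ne_fun continuous_fst continuous_const)
  have hA : DifferentiableOn ℂ (fun p => a (ψ p)) {p : ℂ × ℂ | p ∈ ball 0 ρ' ×ˢ ball c₁ δ ∧ p.1 ≠ 0} :=
    ha0.comp_differentiableOn (hψ.mono fun p hp => hp.1)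
  have hA2 : ContDiffOn ℂ 2 (fun p => a (ψ p)) {p : ℂ × ℂ | p ∈ ball 0 ρ' ×ˢ ball c₁ δ ∧ p.1 ≠ 0} := osg hO hA 2
  have hD : ∀ p ∈ {p : ℂ × ℂ | p ∈ ball 0 ρ' ×ˢ ball c₁ δ ∧ p.1 ≠ 0},
      HasFDerivAt (fun p => (a (ψ p))⁻¹ • fderiv ℂ (fun p => a (ψ p)) p)
        ((a (ψ p))⁻¹ • fderiv ℂ (fderiv ℂ (fun p => a (ψ p))) p +
          (-((a (ψ p) ^ 2)⁻¹) • fderiv ℂ (fun p => a (ψ p)) p).smulRight (fderiv ℂ (fun p => a (ψ p)) p)) p := by
    intro p hp
    have h1 : HasFDerivAt (fun p => a (ψ p)) (fderiv ℂ (fun p => a (ψ p)) p) p :=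
      (hA.differentiableAt (hO.mem_nhds hp)).hasFDerivAt
    have h2 : HasFDerivAt (fderiv ℂ (fun p => a (ψ p))) (fderiv ℂ (fderiv ℂ (fun p => a (ψ p))) p) p :=
      (((hA2.contDiffAt (hO.mem_nhds hp)).fderiv_right (m := 1) (by norm_num)).differentiableAt
        (by norm_num)).hasFDerivAt
    have h3 : HasFDerivAt (fun p => (a (ψ p))⁻¹) (-((a (ψ p) ^ 2)⁻¹) • fderiv ℂ (fun p => a (ψ p)) p) p :=
      (hasDerivAt_inv (ha p hp.1 hp.2)).comp_hasFDerivAt p h1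
    exact h3.smul h2
  have h4 := clos (fun p => (a (ψ p))⁻¹ • fderiv ℂ (fun p => a (ψ p)) p) hO
    (fun p hp => (hD p hp).differentiableAt.differentiableWithinAt) (fun p hp x y => by
      rw [(hD p hp).fderiv]
      have h5 : fderiv ℂ (fderiv ℂ (fun p => a (ψ p))) p x y = fderiv ℂ (fderiv ℂ (fun p => a (ψ p))) p y x := by
        have h6 : IsSymmSndFDerivAt ℂ (fun p => a (ψ p)) p := by
          refine (hA2.contDiffAt (hO.mem_nhds hp)).isSymmSndFDerivAt ?_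
          rw [minSmoothness_of_isRCLikeNormedField]
        exact h6 x y
      show (a (ψ p))⁻¹ * fderiv ℂ (fderiv ℂ (fun p => a (ψ p))) p x y +
        -((a (ψ p) ^ 2)⁻¹) * fderiv ℂ (fun p => a (ψ p)) p x * fderiv ℂ (fun p => a (ψ p)) p y =
        (a (ψ p))⁻¹ * fderiv ℂ (fderiv ℂ (fun p => a (ψ p))) p y x +
        -((a (ψ p) ^ 2)⁻¹) * fderiv ℂ (fun p => a (ψ p)) p y * fderiv ℂ (fun p => a (ψ p)) p x
      rw [h5]
      ring) (ρ' / 2) (half_pos hρ) (D := ball c₁ δ) isOpen_ball (convex_ball c₁ δ).isPreconnected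
      (fun c hc s hs => by
        have h5 : ‖s‖ = ρ' / 2 := by simpa using hs
        refine ⟨⟨?_, hc⟩, ?_⟩
        · show s ∈ ball (0 : ℂ) ρ'
          rw [mem_ball_zero_iff, h5]
          linarith
        · show s ≠ 0
          intro h6
          rw [h6, norm_zero] at h5
          linarith) c c₁ hc (mem_ball_self hδ)
  have h6 : ∀ c ∈ ball c₁ δ, ∀ s ∈ sphere (0 : ℂ) (ρ' / 2), deriv (fun s => a (ψ (s, c))) s / a (ψ (s, c)) =
      ((a (ψ (s, c)))⁻¹ • fderiv ℂ (fun p => a (ψ p)) (s, c)) (1, 0) := by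
    intro c hc s hs
    have h5 : ‖s‖ = ρ' / 2 := by simpa using hs
    have h7 : ((s, c) : ℂ × ℂ) ∈ {p : ℂ × ℂ | p ∈ ball 0 ρ' ×ˢ ball c₁ δ ∧ p.1 ≠ 0} := by
      refine ⟨⟨?_, hc⟩, ?_⟩
      · show s ∈ ball (0 : ℂ) ρ'
        rw [mem_ball_zero_iff, h5]
        linarith
      · show s ≠ 0
        intro h6
        rw [h6, norm_zero] at h5
        linarith
    have h8 := per_line (hA.differentiableAt (hO.mem_nhds h7))
    rw [h8.deriv, div_eq_inv_mul]
    rfl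
  rw [circleIntegral.integral_congr (half_pos hρ).le (h6 c hc),
    circleIntegral.integral_congr (half_pos hρ).le (h6 c₁ (mem_ball_self hδ))]
  exact h4

/-- PROOF: take `B` from `exB` and `ρ = ρ' / 2`. For `c ≠ 0` and `c' ∈ ball c₁ δ` let
`J c c' = ∮ s in C(0, ρ), tht a k B Φ ψ c (s, c') (1, 0)`.
(1) `J c c' = J c c₁` by `th` and `clos` (with `O` the set of the `p` in the bidisc with `p.1 ≠ 0`, `D = ball c₁ δ`).
(2) `J c c = - 2 π i m k (ψ (0, c))` for `c ∈ ball c₁ δ`, `c ≠ 0`, with `m` (depending on `c` only) from `res` for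
`α s = a (ψ (s, c))`, `K s = k (ψ (s, c))`: the part with `B` is the integral over the circle of
`B (c, Φ (0, ψ (s, c))) * deriv (fun s => (Φ (0, ψ (s, c))).1) s` (the derivative of `(c - p.2) / a (ψ p)` in the
direction `(1, 0)` is zero where `p.2 = c`), a holomorphic function of `s ∈ ball 0 ρ'`, so zero.
(3) With `k = 1` (`B` for it, or directly `clos` for `(1 / a (ψ p)) • fderiv (a ∘ ψ) p`) the number `m` does not depend
on `c`; it is not zero for `c = c₁` because `a (ψ (0, c₁)) = 0`. So `m ≠ 0` for all `c`, that is `a (ψ (0, c)) = 0`.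
(4) `h c = - J c c₁ / (2 π i m)`; holomorphic for `c ≠ 0` by `par` (`E = ℂ`,
`Θ (c, s) = tht a k B Φ ψ c (s, c₁) (1, 0)`, holomorphic where `c ≠ 0`, `s ∈ ball 0 ρ'`, `s ≠ 0`). -/
theorem per {a b : ℂ × ℂ → ℂ} {Φ : ℂ × (ℂ × ℂ) → ℂ × ℂ} {Ψ : ℂ × (ℂ × ℂ) → ℂ × (ℂ × ℂ)} (T : Triv a b Φ Ψ)
    (c₁ : ℂ) (hc₁ : c₁ ≠ 0) (ρ' δ : ℝ) (hρ : 0 < ρ') (hδ : 0 < δ) (ψ : ℂ × ℂ → ℂ × ℂ)
    (hψ : DifferentiableOn ℂ ψ (ball 0 ρ' ×ˢ ball c₁ δ)) (hb : ∀ p ∈ ball 0 ρ' ×ˢ ball c₁ δ, b (ψ p) = p.2)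
    (ha : ∀ p ∈ ball 0 ρ' ×ˢ ball c₁ δ, p.1 ≠ 0 → a (ψ p) ≠ 0) (h0 : a (ψ (0, c₁)) = 0) (k : ℂ × ℂ → ℂ)
    (hk : Differentiable ℂ k) :
    ∃ h : ℂ → ℂ, DifferentiableOn ℂ h {c | c ≠ 0} ∧
      ∀ c ∈ ball c₁ δ, c ≠ 0 → a (ψ (0, c)) = 0 ∧ h c = k (ψ (0, c)) := by
  obtain ⟨B, hB, hB2⟩ := exB T k hk
  obtain ⟨ρ, hρdef⟩ : ∃ ρ, ρ = ρ' / 2 := ⟨_, rfl⟩
  have hρ0 : 0 < ρ := by rw [hρdef]; linarith
  have hρ1 : ρ < ρ' := by rw [hρdef]; linarith
  obtain ⟨O, hOdef⟩ : ∃ O : Set (ℂ × ℂ), O = {p : ℂ × ℂ | p ∈ ball 0 ρ' ×ˢ ball c₁ δ ∧ p.1 ≠ 0} := ⟨_, rfl⟩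
  have hO : IsOpen O := by
    rw [hOdef]
    exact (isOpen_ball.prod isOpen_ball).inter (isOpen_ne_fun continuous_fst continuous_const)
  have hOsub : ∀ p ∈ O, p ∈ ball 0 ρ' ×ˢ ball c₁ δ := by
    intro p hp
    rw [hOdef] at hp
    exact hp.1
  have hOne : ∀ p ∈ O, a (ψ p) ≠ 0 := by
    intro p hp
    rw [hOdef] at hp
    exact ha p hp.1 hp.2
  have hcir : ∀ c ∈ ball c₁ δ, ∀ s ∈ sphere (0 : ℂ) ρ, (s, c) ∈ O := by
    intro c hc s hs
    have h5 : ‖s‖ = ρ := by simpa using hs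
    rw [hOdef]
    refine ⟨⟨?_, hc⟩, ?_⟩
    · show s ∈ ball (0 : ℂ) ρ'
      rw [mem_ball_zero_iff, h5]
      exact hρ1
    · show s ≠ 0
      intro h6
      rw [h6, norm_zero] at h5
      linarith
  have hc₁m : c₁ ∈ ball c₁ δ := mem_ball_self hδ
  have hψO : DifferentiableOn ℂ ψ O := hψ.mono hOsub
  have hAO : DifferentiableOn ℂ (fun p => a (ψ p)) O := T.ha.comp_differentiableOn hψO
  have hrow : ∀ c ∈ ball c₁ δ, DifferentiableOn ℂ (fun s => ψ (s, c)) (ball 0 ρ') := by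
    intro c hc
    refine hψ.comp ?_ fun s hs => ⟨hs, hc⟩
    exact differentiableOn_id.prodMk (differentiableOn_const c)
  have hggO : ∀ c, DifferentiableOn ℂ (gg a Φ ψ c) O := by
    intro c
    refine T.hΦ.comp_differentiableOn ?_
    exact (per_div ((differentiableOn_const c).sub differentiableOn_snd) hAO hOne).prodMk hψO
  -- the numbers
  have hres : ∀ c ∈ ball c₁ δ, ∃ m : ℕ, (m = 0 ↔ a (ψ (0, c)) ≠ 0) ∧
      ∀ K : ℂ → ℂ, DifferentiableOn ℂ K (ball 0 ρ') →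
        (∮ s in C(0, ρ), K s * (deriv (fun s => a (ψ (s, c))) s / a (ψ (s, c)))) = 2 * Real.pi * I * m * K 0 :=
    fun c hc => res ρ ρ' hρ0 hρ1 (fun s => a (ψ (s, c))) (T.ha.comp_differentiableOn (hrow c hc))
      fun s hs hs0 => ha (s, c) ⟨hs, hc⟩ hs0
  choose! m hm1 hm2 using hres
  have htp : (2 * Real.pi * I : ℂ) ≠ 0 := Complex.two_pi_I_ne_zero
  have hmc : ∀ c ∈ ball c₁ δ, m c = m c₁ := by
    intro c hc
    have h1 := hm2 c hc (fun _ => 1) (differentiableOn_const _)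
    have h2 := hm2 c₁ hc₁m (fun _ => 1) (differentiableOn_const _)
    simp only [one_mul, mul_one] at h1 h2
    have h3 := per_wind T.ha c₁ ρ' δ hρ hδ ψ hψ ha c hc
    rw [← hρdef, h1, h2] at h3
    exact_mod_cast mul_left_cancel₀ htp h3
  have hm0 : m c₁ ≠ 0 := by
    intro h
    exact (hm1 c₁ hc₁m).1 h h0
  have hzero : ∀ c ∈ ball c₁ δ, a (ψ (0, c)) = 0 := by
    intro c hc
    by_contra h
    exact hm0 ((hmc c hc).symm.trans ((hm1 c hc).2 h))
  have hm0' : (2 * Real.pi * I * m c₁ : ℂ) ≠ 0 := mul_ne_zero htp (by exact_mod_cast hm0)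
  refine ⟨fun c => -(∮ s in C(0, ρ), tht a k B Φ ψ c (s, c₁) (1, 0)) / (2 * Real.pi * I * m c₁), ?_, ?_⟩
  · -- holomorphy
    have hdiff : DifferentiableOn ℂ (fun c => ∮ s in C(0, ρ), tht a k B Φ ψ c (s, c₁) (1, 0)) {c | c ≠ 0} := by
      obtain ⟨O', hO'def⟩ : ∃ O' : Set (ℂ × ℂ), O' = {p : ℂ × ℂ | p.1 ≠ 0 ∧ p.2 ∈ ball (0 : ℂ) ρ' ∧ p.2 ≠ 0} := ⟨_, rfl⟩
      have hO' : IsOpen O' := by
        rw [hO'def]
        exact (isOpen_ne_fun continuous_fst continuous_const).inter ((isOpen_ball.preimage continuous_snd).inter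
          (isOpen_ne_fun continuous_snd continuous_const))
      have hmem : ∀ p ∈ O', p.1 ≠ 0 ∧ (p.2, c₁) ∈ O := by
        intro p hp
        rw [hO'def] at hp
        rw [hOdef]
        exact ⟨hp.1, ⟨hp.2.1, hc₁m⟩, hp.2.2⟩
      have hsw : DifferentiableOn ℂ (fun p : ℂ × ℂ => ((p.2, c₁) : ℂ × ℂ)) O' :=
        (differentiable_snd.prodMk (differentiable_const c₁)).differentiableOn
      have hsw2 : MapsTo (fun p : ℂ × ℂ => ((p.2, c₁) : ℂ × ℂ)) O' O := fun p hp => (hmem p hp).2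
      have hψ' : DifferentiableOn ℂ (fun p : ℂ × ℂ => ψ (p.2, c₁)) O' := hψO.comp hsw hsw2
      have hA' : DifferentiableOn ℂ (fun p : ℂ × ℂ => a (ψ (p.2, c₁))) O' := T.ha.comp_differentiableOn hψ'
      have hA'ne : ∀ p ∈ O', a (ψ (p.2, c₁)) ≠ 0 := fun p hp => hOne _ (hmem p hp).2
      have hg' : DifferentiableOn ℂ (fun p : ℂ × ℂ => gg a Φ ψ p.1 (p.2, c₁)) O' := by
        refine T.hΦ.comp_differentiableOn ?_
        exact (per_div (differentiableOn_fst.sub (differentiableOn_const c₁)) hA' hA'ne).prodMk hψ'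
      have hg1 : DifferentiableOn ℂ (fun p : ℂ × ℂ => (gg a Φ ψ p.1 (p.2, c₁)).1) O' := hg'.fst
      have hΘ : DifferentiableOn ℂ (fun p : ℂ × ℂ => B (p.1, gg a Φ ψ p.1 (p.2, c₁)) *
          fderiv ℂ (fun p : ℂ × ℂ => (gg a Φ ψ p.1 (p.2, c₁)).1) p (0, 1) -
          k (ψ (p.2, c₁)) / a (ψ (p.2, c₁)) * fderiv ℂ (fun p : ℂ × ℂ => a (ψ (p.2, c₁))) p (0, 1)) O' := by
        have e1 : DifferentiableOn ℂ (fun p : ℂ × ℂ => B (p.1, gg a Φ ψ p.1 (p.2, c₁))) O' :=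
          hB.comp (differentiableOn_fst.prodMk hg') fun p hp => (hmem p hp).1
        exact (e1.mul (per_fd hO' hg1 (0, 1))).sub
          ((per_div (hk.comp_differentiableOn hψ') hA' hA'ne).mul (per_fd hO' hA' (0, 1)))
      have heq : ∀ p ∈ O', tht a k B Φ ψ p.1 (p.2, c₁) (1, 0) = B (p.1, gg a Φ ψ p.1 (p.2, c₁)) *
          fderiv ℂ (fun p : ℂ × ℂ => (gg a Φ ψ p.1 (p.2, c₁)).1) p (0, 1) -
          k (ψ (p.2, c₁)) / a (ψ (p.2, c₁)) * fderiv ℂ (fun p : ℂ × ℂ => a (ψ (p.2, c₁))) p (0, 1) := by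
        rintro ⟨c, s⟩ hp
        have hsO : (s, c₁) ∈ O := (hmem _ hp).2
        have hgc : DifferentiableAt ℂ (fun p => (gg a Φ ψ c p).1) (s, c₁) :=
          (hggO c).fst.differentiableAt (hO.mem_nhds hsO)
        have e2 := (per_line hgc).unique (per_line2 (hg1.differentiableAt (hO'.mem_nhds hp)))
        have e3 := (per_line (hAO.differentiableAt (hO.mem_nhds hsO))).unique
          (per_line2 (hA'.differentiableAt (hO'.mem_nhds hp)))
        show B (c, gg a Φ ψ c (s, c₁)) * fderiv ℂ (fun p => (gg a Φ ψ c p).1) (s, c₁) (1, 0) -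
          k (ψ (s, c₁)) / a (ψ (s, c₁)) * fderiv ℂ (fun p => a (ψ p)) (s, c₁) (1, 0) = _
        rw [e2, e3]
      intro c hc
      have hin : ∀ θ ∈ uIcc (0 : ℝ) (2 * Real.pi), ((c, circleMap 0 ρ θ) : ℂ × ℂ) ∈ O' := by
        intro θ _
        have h5 : ‖circleMap 0 ρ θ‖ = ρ := by rw [norm_circleMap_zero, abs_of_pos hρ0]
        rw [hO'def]
        refine ⟨hc, ?_, ?_⟩
        · show circleMap 0 ρ θ ∈ ball (0 : ℂ) ρ'
          rw [mem_ball_zero_iff, h5]
          exact hρ1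
        · show circleMap 0 ρ θ ≠ 0
          intro h6
          rw [h6, norm_zero] at h5
          linarith
      have hw : Continuous (deriv (circleMap 0 ρ)) := by
        have h7 : deriv (circleMap 0 ρ) = fun θ => circleMap 0 ρ θ * I := by
          funext θ
          exact deriv_circleMap 0 ρ θ
        rw [h7]
        exact (continuous_circleMap 0 ρ).mul continuous_const
      have h8 := par _ hO' hΘ (continuous_circleMap 0 ρ) hw 0 (2 * Real.pi) c hin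
      refine (h8.differentiableAt.congr_of_eventuallyEq ?_).differentiableWithinAt
      have h9 : ∀ᶠ c' in 𝓝 c, c' ≠ 0 := isOpen_ne.mem_nhds hc
      filter_upwards [h9] with c' hc'
      show (∫ θ in (0 : ℝ)..2 * Real.pi, deriv (circleMap 0 ρ) θ • tht a k B Φ ψ c' (circleMap 0 ρ θ, c₁) (1, 0)) = _
      refine intervalIntegral.integral_congr fun θ _ => ?_
      have h5 : ‖circleMap 0 ρ θ‖ = ρ := by rw [norm_circleMap_zero, abs_of_pos hρ0]
      have h10 : ((c', circleMap 0 ρ θ) : ℂ × ℂ) ∈ O' := by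
        rw [hO'def]
        refine ⟨hc', ?_, ?_⟩
        · show circleMap 0 ρ θ ∈ ball (0 : ℂ) ρ'
          rw [mem_ball_zero_iff, h5]
          exact hρ1
        · show circleMap 0 ρ θ ≠ 0
          intro h6
          rw [h6, norm_zero] at h5
          linarith
      have h11 := heq _ h10
      show deriv (circleMap 0 ρ) θ * tht a k B Φ ψ c' (circleMap 0 ρ θ, c₁) (1, 0) = _
      rw [h11]
    exact hdiff.neg.div_const _
  · -- the value
    intro c hc hc0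
    refine ⟨hzero c hc, ?_⟩
    obtain ⟨hd, hs⟩ := th T k hk B hB hB2 c hc0 ψ hO hψO (fun p hp => hb p (hOsub p hp)) hOne
    have h1 := clos (tht a k B Φ ψ c) hO hd hs ρ hρ0 (D := ball c₁ δ) isOpen_ball (convex_ball c₁ δ).isPreconnected
      hcir c₁ c hc₁m hc
    have hcb : closedBall (0 : ℂ) ρ ⊆ ball 0 ρ' := closedBall_subset_ball hρ1
    have hf1 : DifferentiableOn ℂ (fun s => B (c, Φ (0, ψ (s, c))) * deriv (fun s => (Φ (0, ψ (s, c))).1) s)
        (ball 0 ρ') := by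
      have e0 : DifferentiableOn ℂ (fun s => Φ (0, ψ (s, c))) (ball 0 ρ') :=
        T.hΦ.comp_differentiableOn ((differentiableOn_const 0).prodMk (hrow c hc))
      have e1 : DifferentiableOn ℂ (fun s => B (c, Φ (0, ψ (s, c)))) (ball 0 ρ') :=
        hB.comp ((differentiableOn_const c).prodMk e0) fun s _ => hc0
      exact e1.mul (e0.fst.deriv isOpen_ball)
    show -(∮ s in C(0, ρ), tht a k B Φ ψ c (s, c₁) (1, 0)) / (2 * Real.pi * I * m c₁) = k (ψ (0, c))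
    rw [h1]
    have h2 : (∮ s in C(0, ρ), tht a k B Φ ψ c (s, c) (1, 0)) = (∮ s in C(0, ρ), B (c, Φ (0, ψ (s, c))) *
        deriv (fun s => (Φ (0, ψ (s, c))).1) s) -
        ∮ s in C(0, ρ), k (ψ (s, c)) * (deriv (fun s => a (ψ (s, c))) s / a (ψ (s, c))) := by
      have hi1 : CircleIntegrable (fun s => B (c, Φ (0, ψ (s, c))) * deriv (fun s => (Φ (0, ψ (s, c))).1) s) 0 ρ := by
        refine ContinuousOn.circleIntegrable hρ0.le (hf1.continuousOn.mono ?_)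
        exact sphere_subset_closedBall.trans hcb
      have hi2 : CircleIntegrable (fun s => k (ψ (s, c)) * (deriv (fun s => a (ψ (s, c))) s / a (ψ (s, c)))) 0 ρ := by
        refine ContinuousOn.circleIntegrable hρ0.le ?_
        have e1 : DifferentiableOn ℂ (fun s => a (ψ (s, c))) (ball 0 ρ') := T.ha.comp_differentiableOn (hrow c hc)
        have e2 : DifferentiableOn ℂ (deriv fun s => a (ψ (s, c))) (ball 0 ρ') := e1.deriv isOpen_ball
        have e3 : DifferentiableOn ℂ (fun s => k (ψ (s, c))) (ball 0 ρ') := hk.comp_differentiableOn (hrow c hc)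
        have e4 : sphere (0 : ℂ) ρ ⊆ ball 0 ρ' := sphere_subset_closedBall.trans hcb
        exact (e3.continuousOn.mono e4).mul ((e2.continuousOn.mono e4).div (e1.continuousOn.mono e4)
          fun s hs => hOne _ (hcir c hc s hs))
      rw [← circleIntegral.integral_sub hi1 hi2]
      refine circleIntegral.integral_congr hρ0.le fun s hs' => ?_
      have hsO := hcir c hc s hs'
      have e1 := per_line ((hggO c).fst.differentiableAt (hO.mem_nhds hsO))
      have e2 := per_line (hAO.differentiableAt (hO.mem_nhds hsO))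
      have e3 : (fun s' => (gg a Φ ψ c (s', c)).1) = fun s => (Φ (0, ψ (s, c))).1 := by
        funext s'
        unfold gg
        rw [sub_self, zero_div]
      have e4 : gg a Φ ψ c (s, c) = Φ (0, ψ (s, c)) := by
        unfold gg
        rw [sub_self, zero_div]
      rw [e3] at e1
      show B (c, gg a Φ ψ c (s, c)) * fderiv ℂ (fun p => (gg a Φ ψ c p).1) (s, c) (1, 0) -
        k (ψ (s, c)) / a (ψ (s, c)) * fderiv ℂ (fun p => a (ψ p)) (s, c) (1, 0) =
        B (c, Φ (0, ψ (s, c))) * deriv (fun s => (Φ (0, ψ (s, c))).1) s -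
        k (ψ (s, c)) * (deriv (fun s => a (ψ (s, c))) s / a (ψ (s, c)))
      rw [e1.deriv, e2.deriv, e4]
      ring
    have h3 : (∮ s in C(0, ρ), B (c, Φ (0, ψ (s, c))) * deriv (fun s => (Φ (0, ψ (s, c))).1) s) = 0 := by
      refine Complex.circleIntegral_eq_zero_of_differentiable_on_off_countable hρ0.le (s := ∅) countable_empty
        (hf1.continuousOn.mono hcb) fun s hs => ?_
      exact hf1.differentiableAt (isOpen_ball.mem_nhds (hcb (ball_subset_closedBall hs.1)))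
    rw [h2, h3, hm2 c hc (fun s => k (ψ (s, c))) (hk.comp_differentiableOn (hrow c hc)), hmc c hc]
    field_simp
    ring

end Pool.Agent.Lib.MP_331bf5_ag
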