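import Pool.Agent.Lib.MP_331bf5_ag.D.Hyp

/-!
The closed form on the loops.
-/

set_option autoImplicit false

open Complex Set Filter Topology MeasureTheory Metric

namespace Pool.Agent.Lib.MP_331bf5_ag

/-- The coordinates `q` of the point over `ψ p` in the fibre `f = c`. -/
noncomputable def gg (a : ℂ × ℂ → ℂ) (Φ : ℂ × (ℂ × ℂ) → ℂ × ℂ) (ψ : ℂ × ℂ → ℂ × ℂ) (c : ℂ) (p : ℂ × ℂ) : ℂ × ℂ :=
  Φ ((c - p.2) / a (ψ p), ψ p)

/-- The form `B dq₁ - k da / a` on the fibre `f = c`, in the coordinates `p`. -/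
noncomputable def tht (a k : ℂ × ℂ → ℂ) (B : ℂ × (ℂ × ℂ) → ℂ) (Φ : ℂ × (ℂ × ℂ) → ℂ × ℂ) (ψ : ℂ × ℂ → ℂ × ℂ) (c : ℂ)
    (p : ℂ × ℂ) : ℂ × ℂ →L[ℂ] ℂ :=
  B (c, gg a Φ ψ c p) • fderiv ℂ (fun p => (gg a Φ ψ c p).1) p -
    (k (ψ p) / a (ψ p)) • fderiv ℂ (fun p => a (ψ p)) p

private lemma th_sym {h : ℂ × ℂ → ℂ} {O : Set (ℂ × ℂ)} (hO : IsOpen O) (hh : DifferentiableOn ℂ h O) :
    DifferentiableOn ℂ (fderiv ℂ h) O ∧
      ∀ p ∈ O, ∀ x y, fderiv ℂ (fderiv ℂ h) p x y = fderiv ℂ (fderiv ℂ h) p y x := by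
  have h2 : ContDiffOn ℂ 2 h O := by exact_mod_cast osg hO hh 2
  constructor
  · have h3 : ContDiffOn ℂ 1 (fderiv ℂ h) O := h2.fderiv_of_isOpen hO (by norm_num)
    exact h3.differentiableOn (by norm_num)
  · intro p hp x y
    have h4 : ContDiffAt ℂ 2 h p := h2.contDiffAt (hO.mem_nhds hp)
    have h5 : IsSymmSndFDerivAt ℂ h p := h4.isSymmSndFDerivAt (by simp)
    exact h5.eq x y

private lemma th_chain {a b : ℂ × ℂ → ℂ} {Φ : ℂ × (ℂ × ℂ) → ℂ × ℂ} {Ψ : ℂ × (ℂ × ℂ) → ℂ × (ℂ × ℂ)}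
    (T : Triv a b Φ Ψ) (c : ℂ) (hc : c ≠ 0) (ψ : ℂ × ℂ → ℂ × ℂ) {O : Set (ℂ × ℂ)} (hO : IsOpen O)
    (hb : ∀ p ∈ O, b (ψ p) = p.2) (ha : ∀ p ∈ O, a (ψ p) ≠ 0)
    (hg : DifferentiableOn ℂ (gg a Φ ψ c) O) (h : ℂ × ℂ → ℂ) (hh : Differentiable ℂ h) (p : ℂ × ℂ) (hp : p ∈ O) :
    (Ψ (c, gg a Φ ψ c p)).2 = ψ p ∧ ∀ x,
      fderiv ℂ (fun q => h (Ψ (c, q)).2) (gg a Φ ψ c p) (fderiv ℂ (gg a Φ ψ c) p x) =
        fderiv ℂ (fun p => h (ψ p)) p x := by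
  have key : ∀ p ∈ O, (Ψ (c, gg a Φ ψ c p)).2 = ψ p := by
    intro p hp
    have h1 : a (ψ p) * ((c - p.2) / a (ψ p)) + b (ψ p) = c := by
      rw [hb p hp]
      have := ha p hp
      field_simp
      ring
    have h2 := T.right ((c - p.2) / a (ψ p), ψ p) (by
      show a (ψ p) * ((c - p.2) / a (ψ p)) + b (ψ p) ≠ 0
      rw [h1]
      exact hc)
    have h3 : Ψ (a (ψ p) * ((c - p.2) / a (ψ p)) + b (ψ p), Φ ((c - p.2) / a (ψ p), ψ p)) =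
        ((c - p.2) / a (ψ p), ψ p) := h2
    rw [h1] at h3
    show (Ψ (c, Φ ((c - p.2) / a (ψ p), ψ p))).2 = ψ p
    rw [h3]
  refine ⟨key p hp, fun x => ?_⟩
  have e1 : (fun p => h (ψ p)) =ᶠ[𝓝 p] (fun p => (fun q => h (Ψ (c, q)).2) (gg a Φ ψ c p)) := by
    filter_upwards [hO.mem_nhds hp] with r hr
    show h (ψ r) = h (Ψ (c, gg a Φ ψ c r)).2
    rw [key r hr]
  have hΨ : DifferentiableAt ℂ (fun q => h (Ψ (c, q)).2) (gg a Φ ψ c p) := by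
    have h4 : DifferentiableAt ℂ Ψ (c, gg a Φ ψ c p) :=
      (T.hΨ _ hc).differentiableAt ((isOpen_ne_fun continuous_fst continuous_const).mem_nhds hc)
    have h5 : DifferentiableAt ℂ (fun q : ℂ × ℂ => ((c, q) : ℂ × (ℂ × ℂ))) (gg a Φ ψ c p) :=
      (differentiableAt_const c).prodMk differentiableAt_id
    have h6 : DifferentiableAt ℂ (fun q : ℂ × ℂ => Ψ (c, q)) (gg a Φ ψ c p) :=
      DifferentiableAt.comp (gg a Φ ψ c p) h4 h5
    exact (hh _).comp (gg a Φ ψ c p) h6.snd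
  have hgp : DifferentiableAt ℂ (gg a Φ ψ c) p := (hg p hp).differentiableAt (hO.mem_nhds hp)
  rw [e1.fderiv_eq]
  have h7 := fderiv_comp p hΨ hgp
  have h8 : fderiv ℂ (fun p => (fun q => h (Ψ (c, q)).2) (gg a Φ ψ c p)) p =
      (fderiv ℂ (fun q => h (Ψ (c, q)).2) (gg a Φ ψ c p)).comp (fderiv ℂ (gg a Φ ψ c) p) := h7
  rw [h8]
  rfl

/-- PROOF: `gg a Φ ψ c` and `a ∘ ψ`, `k ∘ ψ` are holomorphic on `O`, and by `osg` so are their derivatives applied to a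
vector (`fderiv ℂ h p` is differentiable in `p`: `ContDiffOn ℂ 2`, `ContDiffOn.fderiv_of_isOpen`), with symmetric second
derivatives (`ContDiffAt.isSymmSndFDerivAt`, `minSmoothness_of_isRCLikeNormedField`). Hence `tht` is differentiable
and `fderiv tht p x y - fderiv tht p y x = (β (g' x) (g' y).1 - β (g' y) (g' x).1) - (k' x a' y - k' y a' x) / a` with
`g' = fderiv (gg ..) p`, `β = fderiv (fun q => B (c, q)) (gg p)`, `k' = fderiv (k ∘ ψ) p`, `a' = fderiv (a ∘ ψ) p` (the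
terms with second derivatives and with `k a' a' / a²` cancel). For `p ∈ O` put `r = ((c - p.2) / a (ψ p), ψ p)`: then
`a r.2 * r.1 + b r.2 = c`, so `Ψ (c, gg p) = r` by `T.right`, and `(Ψ (c, gg p)).2 = ψ p` on the open set `O`; by the
chain rule `k' x = fderiv (fun q => k (Ψ (c, q)).2) (gg p) (g' x)`, the same for `a`. So the difference is zero by `hB2`
at `q = gg p` with `g' x`, `g' y` (divide by `a (ψ p) ≠ 0`). -/
theorem th {a b : ℂ × ℂ → ℂ} {Φ : ℂ × (ℂ × ℂ) → ℂ × ℂ} {Ψ : ℂ × (ℂ × ℂ) → ℂ × (ℂ × ℂ)} (T : Triv a b Φ Ψ)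
    (k : ℂ × ℂ → ℂ) (hk : Differentiable ℂ k) (B : ℂ × (ℂ × ℂ) → ℂ) (hB : DifferentiableOn ℂ B {p | p.1 ≠ 0})
    (hB2 : ∀ c : ℂ, c ≠ 0 → ∀ q x y : ℂ × ℂ,
      a (Ψ (c, q)).2 * (fderiv ℂ (fun q => B (c, q)) q x * y.1 - fderiv ℂ (fun q => B (c, q)) q y * x.1) =
        fderiv ℂ (fun q => k (Ψ (c, q)).2) q x * fderiv ℂ (fun q => a (Ψ (c, q)).2) q y -
          fderiv ℂ (fun q => k (Ψ (c, q)).2) q y * fderiv ℂ (fun q => a (Ψ (c, q)).2) q x)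
    (c : ℂ) (hc : c ≠ 0) (ψ : ℂ × ℂ → ℂ × ℂ) {O : Set (ℂ × ℂ)} (hO : IsOpen O) (hψ : DifferentiableOn ℂ ψ O)
    (hb : ∀ p ∈ O, b (ψ p) = p.2) (ha : ∀ p ∈ O, a (ψ p) ≠ 0) :
    DifferentiableOn ℂ (tht a k B Φ ψ c) O ∧
      ∀ p ∈ O, ∀ x y, fderiv ℂ (tht a k B Φ ψ c) p x y = fderiv ℂ (tht a k B Φ ψ c) p y x := by
  have haψ : DifferentiableOn ℂ (fun p => a (ψ p)) O := T.ha.comp_differentiableOn hψ
  have hkψ : DifferentiableOn ℂ (fun p => k (ψ p)) O := hk.comp_differentiableOn hψ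
  have hgg : DifferentiableOn ℂ (gg a Φ ψ c) O := by
    have h1 : DifferentiableOn ℂ (fun p : ℂ × ℂ => (c - p.2) / a (ψ p)) O := by
      have h0 : DifferentiableOn ℂ (fun p : ℂ × ℂ => (c - p.2) * (a (ψ p))⁻¹) O :=
        ((differentiableOn_const c).sub differentiable_snd.differentiableOn).mul (haψ.fun_inv ha)
      exact h0.congr (fun p _ => div_eq_mul_inv _ _)
    exact T.hΦ.comp_differentiableOn (h1.prodMk hψ)
  have hg1 : DifferentiableOn ℂ (fun p => (gg a Φ ψ c p).1) O := hgg.fst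
  have hβ : DifferentiableOn ℂ (fun p => B (c, gg a Φ ψ c p)) O := by
    have h1 : DifferentiableOn ℂ (fun p => ((c, gg a Φ ψ c p) : ℂ × (ℂ × ℂ))) O :=
      (differentiableOn_const c).prodMk hgg
    exact hB.comp h1 (fun p _ => hc)
  have hκ : DifferentiableOn ℂ (fun p => k (ψ p) / a (ψ p)) O := by
    have h0 : DifferentiableOn ℂ (fun p : ℂ × ℂ => k (ψ p) * (a (ψ p))⁻¹) O := hkψ.mul (haψ.fun_inv ha)
    exact h0.congr (fun p _ => div_eq_mul_inv _ _)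
  obtain ⟨dg, sg⟩ := th_sym hO hg1
  obtain ⟨da, sa⟩ := th_sym hO haψ
  have hD : DifferentiableOn ℂ (tht a k B Φ ψ c) O := (hβ.smul dg).sub (hκ.smul da)
  refine ⟨hD, fun p hp => ?_⟩
  have nO : O ∈ 𝓝 p := hO.mem_nhds hp
  have A1 := ((hβ p hp).differentiableAt nO)
  have A2 := ((dg p hp).differentiableAt nO)
  have A3 := ((hκ p hp).differentiableAt nO)
  have A4 := ((da p hp).differentiableAt nO)
  have A5 := ((haψ p hp).differentiableAt nO)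
  have A6 := ((hkψ p hp).differentiableAt nO)
  have A7 := ((hgg p hp).differentiableAt nO)
  have E : ∀ x y, fderiv ℂ (tht a k B Φ ψ c) p x y =
      B (c, gg a Φ ψ c p) * fderiv ℂ (fderiv ℂ (fun p => (gg a Φ ψ c p).1)) p x y +
        fderiv ℂ (fun p => B (c, gg a Φ ψ c p)) p x * fderiv ℂ (fun p => (gg a Φ ψ c p).1) p y -
      ((k (ψ p) / a (ψ p)) * fderiv ℂ (fderiv ℂ (fun p => a (ψ p))) p x y +
        fderiv ℂ (fun p => k (ψ p) / a (ψ p)) p x * fderiv ℂ (fun p => a (ψ p)) p y) := by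
    intro x y
    have h1 := ((A1.hasFDerivAt.smul A2.hasFDerivAt).sub (A3.hasFDerivAt.smul A4.hasFDerivAt))
    have h2 : HasFDerivAt (tht a k B Φ ψ c) _ p := h1
    rw [h2.fderiv]
    simp
  have Eβ : ∀ x, fderiv ℂ (fun p => B (c, gg a Φ ψ c p)) p x =
      fderiv ℂ (fun q => B (c, q)) (gg a Φ ψ c p) (fderiv ℂ (gg a Φ ψ c) p x) := by
    intro x
    have h4 : DifferentiableAt ℂ B (c, gg a Φ ψ c p) :=
      (hB _ hc).differentiableAt ((isOpen_ne_fun continuous_fst continuous_const).mem_nhds hc)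
    have h5 : DifferentiableAt ℂ (fun q : ℂ × ℂ => ((c, q) : ℂ × (ℂ × ℂ))) (gg a Φ ψ c p) :=
      (differentiableAt_const c).prodMk differentiableAt_id
    have h6 : DifferentiableAt ℂ (fun q : ℂ × ℂ => B (c, q)) (gg a Φ ψ c p) :=
      DifferentiableAt.comp (gg a Φ ψ c p) h4 h5
    have h7 := fderiv_comp p h6 A7
    have h8 : fderiv ℂ (fun p => B (c, gg a Φ ψ c p)) p =
        (fderiv ℂ (fun q => B (c, q)) (gg a Φ ψ c p)).comp (fderiv ℂ (gg a Φ ψ c) p) := h7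
    rw [h8]
    rfl
  have Eg : ∀ y, fderiv ℂ (fun p => (gg a Φ ψ c p).1) p y = (fderiv ℂ (gg a Φ ψ c) p y).1 := by
    intro y
    rw [(A7.hasFDerivAt.fst).fderiv]
    rfl
  have Eκ : ∀ x, fderiv ℂ (fun p => k (ψ p) / a (ψ p)) p x =
      (fderiv ℂ (fun p => k (ψ p)) p x * a (ψ p) - k (ψ p) * fderiv ℂ (fun p => a (ψ p)) p x) / a (ψ p) ^ 2 := by
    intro x
    have h1 := (A3.hasFDerivAt.mul A5.hasFDerivAt).fderiv
    have h2 : (fun p => k (ψ p)) =ᶠ[𝓝 p] ((fun p => k (ψ p) / a (ψ p)) * (fun p => a (ψ p))) := by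
      filter_upwards [nO] with r hr
      show k (ψ r) = k (ψ r) / a (ψ r) * a (ψ r)
      rw [div_mul_cancel₀ _ (ha r hr)]
    rw [← h2.fderiv_eq] at h1
    rw [h1]
    have hap := ha p hp
    simp
    field_simp
    ring
  obtain ⟨c0, cK⟩ := th_chain T c hc ψ hO hb ha hgg k hk p hp
  obtain ⟨_, cA⟩ := th_chain T c hc ψ hO hb ha hgg a T.ha p hp
  intro x y
  have H := hB2 c hc (gg a Φ ψ c p) (fderiv ℂ (gg a Φ ψ c) p x) (fderiv ℂ (gg a Φ ψ c) p y)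
  rw [c0, cK, cK, cA, cA, ← Eβ, ← Eβ, ← Eg, ← Eg] at H
  rw [E x y, E y x, sg p hp x y, sa p hp x y, Eκ, Eκ]
  have hap := ha p hp
  linear_combination (norm := skip) (1 / a (ψ p)) * H
  field_simp
  ring

end Pool.Agent.Lib.MP_331bf5_ag
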