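import Mathlib

/-!
The zero set of a holomorphic function of two variables is not countable near a zero.
-/

set_option autoImplicit false

open Complex Set Filter Topology MeasureTheory Metric

namespace Pool.Agent.Lib.MP_331bf5_ag

/-- A neighbourhood in the plane is not countable. -/
private theorem Z_nhds_uncount (S : Set ℂ) (w : ℂ) (hS : S ∈ 𝓝 w) (hc : S.Countable) : False := by
  have h1 : (0 : ENNReal) < volume S := Measure.measure_pos_of_mem_nhds volume hS
  rw [hc.measure_zero volume] at h1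
  exact lt_irrefl _ h1

/-- PROOF: let `z₀ = (v₀, w₀)` and `ball v₀ r ×ˢ ball w₀ r ⊆ N`. If `a (v, w₀) = 0` for all `v` near `v₀`, the set contains
a disc. Otherwise choose `0 < t < r` with `a (v, w₀) ≠ 0` for `‖v - v₀‖ = t` (isolated zeros); for all `w` near `w₀` the
minimum of `‖a (v, w)‖` over the circle is larger than `‖a (v₀, w)‖` (continuity, compactness), so `a (·, w)` has a zero
in the disc (otherwise the maximum principle for `1 / a (·, w)`,
`Complex.norm_le_of_forall_mem_frontier_norm_le`, gives a contradiction). The map `z ↦ z.2` from the set covers a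
neighbourhood of `w₀`, which is not countable (`Cardinal`, or `Set.Countable.measure_zero`). -/
theorem uncount (a : ℂ × ℂ → ℂ) (ha : Differentiable ℂ a) (z₀ : ℂ × ℂ) (h0 : a z₀ = 0) (N : Set (ℂ × ℂ))
    (hN : N ∈ 𝓝 z₀) : ¬ {z | z ∈ N ∧ a z = 0}.Countable := by
  intro hcount
  obtain ⟨v₀, w₀⟩ := z₀
  have hav : ∀ w : ℂ, Differentiable ℂ (fun v : ℂ => a (v, w)) := fun w =>
    ha.comp (differentiable_id.prodMk (differentiable_const w))
  have hcont : Continuous a := ha.continuous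
  obtain ⟨r, hr, hrN⟩ := Metric.mem_nhds_iff.1 hN
  have hA : AnalyticAt ℂ (fun v : ℂ => a (v, w₀)) v₀ := (hav w₀).analyticAt v₀
  rcases hA.eventually_eq_zero_or_eventually_ne_zero with hz | hz
  · have h1 : ((fun v : ℂ => ((v, w₀) : ℂ × ℂ)) ⁻¹' {z | z ∈ N ∧ a z = 0}) ∈ 𝓝 v₀ := by
      have h2 : ∀ᶠ v in 𝓝 v₀, ((v, w₀) : ℂ × ℂ) ∈ N :=
        (Continuous.prodMk_left w₀).continuousAt.eventually hN
      filter_upwards [h2, hz] with v hv1 hv2
      exact ⟨hv1, hv2⟩
    exact Z_nhds_uncount _ v₀ h1 (hcount.preimage (Prod.mk_left_injective w₀))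
  · obtain ⟨δ, hδ, hδ2⟩ := Metric.mem_nhds_iff.1 (eventually_nhdsWithin_iff.1 hz)
    obtain ⟨t, ht0, htδ, htr⟩ : ∃ t : ℝ, 0 < t ∧ t < δ ∧ t < r := by
      refine ⟨min δ r / 2, by positivity, ?_, ?_⟩
      · have := min_le_left δ r
        linarith
      · have := min_le_right δ r
        linarith
    have hK : IsCompact (sphere v₀ t) := isCompact_sphere v₀ t
    have hne : (sphere v₀ t).Nonempty := NormedSpace.sphere_nonempty.2 ht0.le
    have hgc : ContinuousOn (fun v : ℂ => ‖a (v, w₀)‖) (sphere v₀ t) :=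
      ((hav w₀).continuous.norm).continuousOn
    obtain ⟨v₁, hv₁, hmin⟩ := hK.exists_isMinOn hne hgc
    have hm : 0 < ‖a (v₁, w₀)‖ := by
      rw [norm_pos_iff]
      have h1 : v₁ ∈ ball v₀ δ := by
        rw [mem_ball, mem_sphere.1 hv₁]
        exact htδ
      refine hδ2 h1 ?_
      intro h2
      have h3 := mem_sphere.1 hv₁
      rw [mem_singleton_iff.1 h2, dist_self] at h3
      exact ht0.ne h3
    obtain ⟨m, hmdef⟩ : ∃ m, m = ‖a (v₁, w₀)‖ := ⟨_, rfl⟩
    rw [← hmdef] at hm
    have hP : ∀ᶠ w in 𝓝 w₀, ∀ v ∈ sphere v₀ t, m / 2 < ‖a (v, w)‖ := by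
      refine hK.eventually_forall_of_forall_eventually (x₀ := w₀) (P := fun w v => m / 2 < ‖a (v, w)‖) ?_
      intro v hv
      have h1 : ContinuousAt (fun z : ℂ × ℂ => ‖a (z.2, z.1)‖) (w₀, v) :=
        (hcont.comp (continuous_snd.prodMk continuous_fst)).norm.continuousAt
      refine h1.eventually (lt_mem_nhds ?_)
      have h2 : ‖a (v₁, w₀)‖ ≤ ‖a (v, w₀)‖ := hmin hv
      show m / 2 < ‖a (v, w₀)‖
      rw [← hmdef] at h2
      linarith
    have hQ : ∀ᶠ w in 𝓝 w₀, ‖a (v₀, w)‖ < m / 2 := by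
      have h1 : ContinuousAt (fun w : ℂ => ‖a (v₀, w)‖) w₀ :=
        (hcont.comp (Continuous.prodMk_right v₀)).norm.continuousAt
      refine h1.eventually (gt_mem_nhds ?_)
      show ‖a (v₀, w₀)‖ < m / 2
      rw [h0, norm_zero]
      linarith
    have hR : (Prod.snd '' {z : ℂ × ℂ | z ∈ N ∧ a z = 0}) ∈ 𝓝 w₀ := by
      filter_upwards [hP, hQ, ball_mem_nhds w₀ hr] with w hw1 hw2 hw3
      by_contra hno
      have hnz : ∀ v ∈ closure (ball v₀ t), a (v, w) ≠ 0 := by
        intro v hv h1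
        rw [closure_ball v₀ ht0.ne'] at hv
        refine hno ⟨(v, w), ⟨hrN ?_, h1⟩, rfl⟩
        rw [mem_ball, Prod.dist_eq]
        exact max_lt (lt_of_le_of_lt (mem_closedBall.1 hv) htr) (mem_ball.1 hw3)
      have hd : DiffContOnCl ℂ (fun v : ℂ => (a (v, w))⁻¹) (ball v₀ t) :=
        (hav w).diffContOnCl.inv hnz
      have hC : ∀ v ∈ frontier (ball v₀ t), ‖(a (v, w))⁻¹‖ ≤ (m / 2)⁻¹ := by
        intro v hv
        rw [frontier_ball v₀ ht0.ne'] at hv
        rw [norm_inv]
        exact inv_anti₀ (by linarith) (hw1 v hv).le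
      have h3 := Complex.norm_le_of_forall_mem_frontier_norm_le isBounded_ball hd hC
        (subset_closure (mem_ball_self ht0))
      rw [norm_inv] at h3
      have h4 : 0 < ‖a (v₀, w)‖ := norm_pos_iff.2 (hnz v₀ (subset_closure (mem_ball_self ht0)))
      have h5 := (inv_le_inv₀ h4 (by linarith)).1 h3
      linarith
    exact Z_nhds_uncount _ w₀ hR (hcount.image _)

end Pool.Agent.Lib.MP_331bf5_ag
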